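import Mathlib

/-!
# Varieties over a field, dimension of points, open and closed subvarieties
-/

open CategoryTheory AlgebraicGeometry

universe u

namespace Pool.Agent.V7H2.TS

/-- A variety over the field `k`: a separated scheme of finite type over `k` (neither smooth, proper,
reduced nor irreducible in general). -/
structure Variety (k : Type u) [Field k] where
  /-- the scheme over `k` -/
  sch : Over (Spec (CommRingCat.of k))
  isSeparated : IsSeparated sch.hom
  locallyOfFiniteType : LocallyOfFiniteType sch.hom
  quasiCompact : QuasiCompact sch.hom

variable {k : Type u} [Field k]

/-- The set of the points of the variety. -/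
abbrev Variety.Pt (X : Variety k) : Type u := X.sch.left

/-- The morphisms of varieties over `k`. -/
abbrev Variety.Mor (X Y : Variety k) : Type u := X.sch ⟶ Y.sch

/-- The homomorphism from `k` to the residue field of the point `x`. -/
noncomputable def residueHom (X : Variety k) (x : X.Pt) : k →+* X.sch.left.residueField x :=
  (Spec.preimage (X.sch.left.fromSpecResidueField x ≫ X.sch.hom)).hom

/-- The dimension of the point `x`, that is of the closed subvariety with generic point `x`: the
transcendence degree of its residue field over `k`. -/
noncomputable def dimension (X : Variety k) (x : X.Pt) : Cardinal.{u} :=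
  @Algebra.trdeg k (X.sch.left.residueField x) _ _ (residueHom X x).toAlgebra

/-- The image of a point. -/
noncomputable abbrev image {X Y : Variety k} (f : X.Mor Y) (x : X.Pt) : Y.Pt := f.left x

/-- The morphism is an open immersion. -/
abbrev IsOpenMor {X Y : Variety k} (f : X.Mor Y) : Prop := IsOpenImmersion f.left

/-- The morphism is proper. -/
abbrev IsProperMor {X Y : Variety k} (f : X.Mor Y) : Prop := IsProper f.left

/-- The closed immersion `i : Z ⟶ X` and the open immersion `f : U ⟶ X` are complementary. -/
structure IsComplementary {Z U X : Variety k} (i : Z.Mor X) (f : U.Mor X) : Prop where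
  isClosedImmersion : IsClosedImmersion i.left
  isOpenImmersion : IsOpenImmersion f.left
  range_eq : Set.range (image i) = (Set.range (image f))ᶜ

/-- Every irreducible component of the variety `Z` has dimension `j` (or `Z` is empty): finitely many
points of dimension `j` are dense. -/
def IsPure (Z : Variety k) (j : ℕ) : Prop :=
  ∃ s : Finset Z.Pt, (∀ z ∈ s, dimension Z z = j) ∧ closure (s : Set Z.Pt) = Set.univ

/-- The dimension of `X` is at most `d`. -/
def DimLE (X : Variety k) (d : ℕ) : Prop := ∀ x : X.Pt, dimension X x ≤ d

/-- The class `P` of varieties is large: every variety `X` is the image, under a proper morphism, of an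
open subvariety of a member of `P` whose dimension is not larger. By the theorem of de Jong on
alterations this is true for the projective varieties of pure dimension which are smooth over `k`
(`k` perfect, for instance finite) or over a finite extension of `k` (`k` arbitrary). -/
def HasAlterations (P : Variety k → Prop) : Prop :=
  ∀ X : Variety k, ∃ (Y W : Variety k) (f : W.Mor Y) (g : W.Mor X),
    P Y ∧ (∀ d, DimLE X d → DimLE Y d) ∧ IsOpenMor f ∧ IsProperMor g ∧
      Function.Surjective (image g)

/-- The variety `U` is an open subvariety of `X`. -/
def IsOpenIn (U X : Variety k) : Prop := ∃ f : U.Mor X, IsOpenMor f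

/-- The variety `U` is the complement in `X` of a closed subvariety of pure dimension `j` (or of the
empty set, so that `U = X` is allowed). -/
def IsSmallComplement (U X : Variety k) (j : ℕ) : Prop :=
  ∃ (Z : Variety k) (i : Z.Mor X) (f : U.Mor X), IsPure Z j ∧ IsComplementary i f

/-- Intersection theory on a class of varieties (which does not depend on a homology theory): `dim Y` is
the dimension of `Y`, and `number Y x y` is the intersection number of the closed subvarieties with
the generic points `x` and `y` of complementary dimensions. -/
structure Intersections (k : Type u) [Field k] where
  dim : Variety k → ℕ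
  number : ∀ Y : Variety k, Y.Pt → Y.Pt → ℚ

/-- The rank of the group of the `i`-dimensional cycles on `Y` modulo numerical equivalence is at
least `n`: there are `n` subvarieties of dimension `i` and `n` of the complementary dimension `j` whose
matrix of intersection numbers has a nonzero determinant. -/
def NumericalRankGE (I : Intersections k) (Y : Variety k) (i j n : ℕ) : Prop :=
  ∃ x y : Fin n → Y.Pt, (∀ a, dimension Y (x a) = i) ∧ (∀ b, dimension Y (y b) = j) ∧
    (Matrix.of fun a b => I.number Y (x a) (y b)).det ≠ 0

end Pool.Agent.V7H2.TS
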