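import Pool.Agent.V7H2.TS.Base

/-!
# Homology theories with Galois action and cycle classes on all varieties

The definitions for `MP_40dc3c_ag.OpenVarietiesH2`. The example is the étale (Borel-Moore) homology
of varieties over a finitely generated field.
-/

open CategoryTheory AlgebraicGeometry

universe u u' v v' w w'

namespace Pool.Agent.V7H2.TS

/-- The data of a homology theory with coefficients in the field `K` on the varieties over `k`, with
an action of the group `Γ`. Example: `H X j` is the homology `H_(2j)(X, ℚ_ℓ(j))` and `H' X j` is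
`H_(2j-1)(X, ℚ_ℓ(j))` over the separable closure of `k` (étale Borel-Moore homology), `Γ` is the
Galois group of `k` (for a finite field `k` we take the group generated by the Frobenius element), and
`cl X j x` is the fundamental class of the closed subvariety with generic point `x`, if it has
dimension `j` (otherwise the value is not used). The direct image `push f j` is used for proper `f`
only, and the restriction `pull f j` for open immersions `f`. -/
structure HomologyData (k : Type u) [Field k] (K : Type v) [Field K] (Γ : Type w) where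
  H : Variety k → ℕ → Type v
  H' : Variety k → ℕ → Type v
  instAdd : ∀ X j, AddCommGroup (H X j)
  instMod : ∀ X j, Module K (H X j)
  instAdd' : ∀ X j, AddCommGroup (H' X j)
  instMod' : ∀ X j, Module K (H' X j)
  act : ∀ X j, Γ → H X j → H X j
  act' : ∀ X j, Γ → H' X j → H' X j
  cl : ∀ X j, X.Pt → H X j
  push : ∀ {X Y : Variety k}, X.Mor Y → ∀ j, H X j → H Y j
  pull : ∀ {U X : Variety k}, U.Mor X → ∀ j, H X j → H U j

attribute [instance] HomologyData.instAdd HomologyData.instMod HomologyData.instAdd'
  HomologyData.instMod'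

variable {k : Type u} [Field k] {K : Type v} [Field K] {Γ : Type w} [Group Γ]

/-- The space spanned by the classes of the closed subvarieties of dimension `j`. -/
def cycles (𝓗 : HomologyData k K Γ) (X : Variety k) (j : ℕ) : Submodule K (𝓗.H X j) :=
  Submodule.span K {v | ∃ x, dimension X x = j ∧ 𝓗.cl X j x = v}

/-- The class `v` is invariant. -/
def IsInvariant (𝓗 : HomologyData k K Γ) (X : Variety k) (j : ℕ) (v : 𝓗.H X j) : Prop :=
  ∀ γ, 𝓗.act X j γ v = v

/-- The question for `X` and `j`: the map `c_j` is surjective, that is, every invariant class is a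
combination of classes of `j`-dimensional subvarieties. -/
def Tate (𝓗 : HomologyData k K Γ) (X : Variety k) (j : ℕ) : Prop :=
  ∀ v, IsInvariant 𝓗 X j v → v ∈ cycles 𝓗 X j

/-- The question for all varieties and all `j`. -/
def TateForAll (𝓗 : HomologyData k K Γ) : Prop := ∀ X j, Tate 𝓗 X j

/-- The space `V = H X j` has no nonzero invariant modulo `V ^ Γ`: if `γ v - v` is invariant for all
`γ`, then `v` is invariant. So `V` contains no nontrivial extension of the trivial representation by
itself. If `Γ` is generated by a Frobenius element `F`, this says that `1` is a semisimple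
eigenvalue: `(F - 1) ^ 2 v = 0` implies `(F - 1) v = 0`. -/
def NoSelfExtensions (𝓗 : HomologyData k K Γ) (X : Variety k) (j : ℕ) : Prop :=
  ∀ v, (∀ γ, IsInvariant 𝓗 X j (𝓗.act X j γ v - v)) → IsInvariant 𝓗 X j v

/-- The subspace `M` of `H X j` is stable under the group. -/
def IsStable (𝓗 : HomologyData k K Γ) (X : Variety k) (j : ℕ) (M : Submodule K (𝓗.H X j)) : Prop :=
  ∀ γ, ∀ m ∈ M, 𝓗.act X j γ m ∈ M

/-- The class of `v` modulo `M` is invariant. -/
def IsInvMod (𝓗 : HomologyData k K Γ) (X : Variety k) (j : ℕ) (M : Submodule K (𝓗.H X j))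
    (v : 𝓗.H X j) : Prop :=
  ∀ γ, 𝓗.act X j γ v - v ∈ M

/-- The question for all quotients of the representation: for all stable subspaces `M` of `H X j`
every class that is invariant modulo `M` is modulo `M` a combination of classes of subvarieties. -/
def TateQuotients (𝓗 : HomologyData k K Γ) (X : Variety k) (j : ℕ) : Prop :=
  ∀ M, IsStable 𝓗 X j M → ∀ v, IsInvMod 𝓗 X j M v → ∃ a ∈ cycles 𝓗 X j, v - a ∈ M

/-- The `n`-th step of the unipotent filtration: zero for `n = 0`, and then the vectors which are
invariant modulo the step before. -/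
def unipotentStep (𝓗 : HomologyData k K Γ) (X : Variety k) (j : ℕ) : ℕ → Set (𝓗.H X j)
  | 0 => {0}
  | n + 1 => {v | ∀ γ, 𝓗.act X j γ v - v ∈ unipotentStep 𝓗 X j n}

/-- The largest subspace on which the group acts unipotently. If `Γ` is generated by a Frobenius
element, this is the generalized eigenspace for the eigenvalue `1`. -/
def unipotentPart (𝓗 : HomologyData k K Γ) (X : Variety k) (j : ℕ) : Submodule K (𝓗.H X j) :=
  Submodule.span K {v | ∃ n, v ∈ unipotentStep 𝓗 X j n}

/-- The dimension of the unipotent part of `H Y i`. For a finite field `k` and a smooth projective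
variety `Y` this is the order of the pole of the zeta function `ζ(Y, s)` at `s = i`. -/
noncomputable def poleOrder (𝓗 : HomologyData k K Γ) (Y : Variety k) (i : ℕ) : ℕ :=
  Module.finrank K (unipotentPart 𝓗 Y i)

/-- The spaces are finite dimensional representations. -/
structure IsRepresentation (𝓗 : HomologyData k K Γ) : Prop where
  finite : ∀ X j, Module.Finite K (𝓗.H X j)
  act_linear : ∀ X j γ, IsLinearMap K (𝓗.act X j γ)
  act_one : ∀ X j v, 𝓗.act X j 1 v = v
  act_mul : ∀ X j γ δ v, 𝓗.act X j (γ * δ) v = 𝓗.act X j γ (𝓗.act X j δ v)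
  act'_linear : ∀ X j γ, IsLinearMap K (𝓗.act' X j γ)
  act'_one : ∀ X j v, 𝓗.act' X j 1 v = v
  act'_mul : ∀ X j γ δ v, 𝓗.act' X j (γ * δ) v = 𝓗.act' X j γ (𝓗.act' X j δ v)

/-- The direct images and restrictions are linear and equivariant. -/
structure IsEquivariant (𝓗 : HomologyData k K Γ) : Prop where
  push_linear : ∀ {X Y : Variety k} (f : X.Mor Y) (j : ℕ), IsProperMor f →
    IsLinearMap K (𝓗.push f j)
  pull_linear : ∀ {U X : Variety k} (f : U.Mor X) (j : ℕ), IsOpenMor f →
    IsLinearMap K (𝓗.pull f j)
  push_act : ∀ {X Y : Variety k} (f : X.Mor Y) (j : ℕ), IsProperMor f → ∀ γ v,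
    𝓗.push f j (𝓗.act X j γ v) = 𝓗.act Y j γ (𝓗.push f j v)
  pull_act : ∀ {U X : Variety k} (f : U.Mor X) (j : ℕ), IsOpenMor f → ∀ γ v,
    𝓗.pull f j (𝓗.act X j γ v) = 𝓗.act U j γ (𝓗.pull f j v)

/-- The classes of subvarieties of dimension `j` are invariant, the direct image of such a class is a
combination of such classes, and the restriction to an open subvariety `U` of such a class is the
class of the intersection with `U`. -/
structure HasCycleClasses (𝓗 : HomologyData k K Γ) : Prop where
  act_cl : ∀ (X : Variety k) (j : ℕ) (x : X.Pt), dimension X x = j →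
    IsInvariant 𝓗 X j (𝓗.cl X j x)
  push_cl : ∀ {X Y : Variety k} (f : X.Mor Y) (j : ℕ) (x : X.Pt), IsProperMor f →
    dimension X x = j → 𝓗.push f j (𝓗.cl X j x) ∈ cycles 𝓗 Y j
  pull_cl : ∀ {U X : Variety k} (f : U.Mor X) (j : ℕ) (y : U.Pt), IsOpenMor f →
    dimension U y = j → 𝓗.pull f j (𝓗.cl X j (image f y)) = 𝓗.cl U j y
  pull_cl_zero : ∀ {U X : Variety k} (f : U.Mor X) (j : ℕ) (x : X.Pt), IsOpenMor f →
    dimension X x = j → x ∉ Set.range (image f) → 𝓗.pull f j (𝓗.cl X j x) = 0

/-- The map `b` is linear and equivariant. -/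
structure IsBoundary (𝓗 : HomologyData k K Γ) (U Z : Variety k) (j : ℕ)
    (b : 𝓗.H U j → 𝓗.H' Z j) : Prop where
  linear : IsLinearMap K b
  equivariant : ∀ γ v, b (𝓗.act U j γ v) = 𝓗.act' Z j γ (b v)

/-- The localisation sequence `H_(2j)(Z, j) → H_(2j)(X, j) → H_(2j)(U, j) → H_(2j-1)(Z, j)` is exact. -/
def HasLocalization (𝓗 : HomologyData k K Γ) : Prop :=
  ∀ {Z U X : Variety k} (i : Z.Mor X) (f : U.Mor X), IsComplementary i f → ∀ j,
    (∀ v, 𝓗.pull f j v = 0 ↔ ∃ z, 𝓗.push i j z = v) ∧
    ∃ b, IsBoundary 𝓗 U Z j b ∧ ∀ v, b v = 0 ↔ ∃ w, 𝓗.pull f j w = v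

/-- Consequences of the theory of weights (Deligne): the weights of `H_(2j-1)(Z, j)` and of the
cokernel of `H_(2j)(W, j) → H_(2j)(X, j)`, for a proper surjective morphism `W → X`, are positive, so
these spaces have no nonzero subquotient with the trivial action: if `M` is stable (and contains the
image of `W`), then there are no nonzero invariants modulo `M`. -/
structure HasWeights (𝓗 : HomologyData k K Γ) : Prop where
  odd : ∀ (Z : Variety k) (j : ℕ) (M : Submodule K (𝓗.H' Z j)),
    (∀ γ, ∀ m ∈ M, 𝓗.act' Z j γ m ∈ M) → ∀ v, (∀ γ, 𝓗.act' Z j γ v - v ∈ M) → v ∈ M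
  cokernel : ∀ {W X : Variety k} (g : W.Mor X) (j : ℕ), IsProperMor g →
    Function.Surjective (image g) → ∀ M, IsStable 𝓗 X j M → (∀ w, 𝓗.push g j w ∈ M) →
    ∀ v, IsInvMod 𝓗 X j M v → v ∈ M

/-- For a variety `Z` all of whose components have dimension `j`, the homology `H_(2j)(Z, j)` is the
permutation representation on the set of the geometric components, so that the invariants in all its
quotients are combinations of classes of components. -/
def HasFundamentalClasses (𝓗 : HomologyData k K Γ) : Prop :=
  ∀ (Z : Variety k) (j : ℕ), IsPure Z j → TateQuotients 𝓗 Z j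

/-- A homology theory with weights: all the properties above. The étale homology of varieties over
a finitely generated field `k` has these properties (Grothendieck, Deligne), with `K = ℚ_ℓ`, `ℓ`
different from the characteristic, and the Galois group `Γ`. -/
structure IsHomologyTheory (𝓗 : HomologyData k K Γ) : Prop where
  representation : IsRepresentation 𝓗
  equivariant : IsEquivariant 𝓗
  cycleClasses : HasCycleClasses 𝓗
  localization : HasLocalization 𝓗
  weights : HasWeights 𝓗
  fundamental : HasFundamentalClasses 𝓗

/-- The invariants lift: if `v` is invariant modulo a stable subspace `M`, then it is modulo `M`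
congruent to an element of the unipotent part. This holds automatically if `Γ` is generated by one
element (for finite fields `k`), and by the theorem of Deligne on the geometric semisimplicity of pure
sheaves if `k` is finitely generated of positive characteristic. -/
def HasLifting (𝓗 : HomologyData k K Γ) : Prop :=
  ∀ X j M, IsStable 𝓗 X j M → ∀ v, IsInvMod 𝓗 X j M v →
    ∃ e ∈ unipotentPart 𝓗 X j, v - e ∈ M

/-- The function `B` on `V × W` is bilinear. -/
structure IsBilinear (K : Type v) [Field K] {V W : Type v} [AddCommGroup V] [Module K V]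
    [AddCommGroup W] [Module K W] (B : V → W → K) : Prop where
  left : ∀ w, IsLinearMap K fun v => B v w
  right : ∀ v, IsLinearMap K (B v)

/-- The bilinear form `B` on `H Y i × H Y j` is invariant, nondegenerate, and its values on the classes
of subvarieties are the intersection numbers. -/
structure IsPairing (𝓗 : HomologyData k K Γ) (I : Intersections k) (Y : Variety k) (i j : ℕ)
    (B : 𝓗.H Y i → 𝓗.H Y j → K) : Prop where
  bilinear : IsBilinear K B
  invariant : ∀ γ u v, B (𝓗.act Y i γ u) (𝓗.act Y j γ v) = B u v
  left : ∀ u, (∀ v, B u v = 0) → u = 0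
  right : ∀ v, (∀ u, B u v = 0) → v = 0
  number : ∀ x y, dimension Y x = i → dimension Y y = j →
    B (𝓗.cl Y i x) (𝓗.cl Y j y) = (I.number Y x y : K)

/-- Poincaré duality for the members of `P` (smooth projective varieties of pure dimension). -/
def HasDuality (𝓗 : HomologyData k K Γ) (I : Intersections k) (P : Variety k → Prop) : Prop :=
  ∀ Y, P Y → (∀ j, I.dim Y < j → ∀ v : 𝓗.H Y j, v = 0) ∧
    ∀ i j, i + j = I.dim Y → ∃ B, IsPairing 𝓗 I Y i j B

/-- The linear map `r` maps classes of subvarieties to combinations of such classes. -/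
structure IsSpecialization {k₀ : Type u'} [Field k₀] {Γ₀ : Type w'} (𝓗₀ : HomologyData k₀ K Γ₀)
    (𝓗 : HomologyData k K Γ) (X₀ : Variety k₀) (i : ℕ) (X : Variety k) (j : ℕ)
    (r : 𝓗₀.H X₀ i → 𝓗.H X j) : Prop where
  linear : IsLinearMap K r
  classes : ∀ x, dimension X₀ x = i → r (𝓗₀.cl X₀ i x) ∈ cycles 𝓗 X j

/-- The relations between a homology theory `𝓗₀` over a finite field `k₀` and a theory `𝓗`, with the same
coefficients, over a finitely generated extension field `k`, the function field of `S`.

* `spread`: an invariant class `v` on a variety `X` over `k` is the restriction to the generic fibre of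
  an element of the unipotent part of the homology of a variety `X₀` over `k₀` (a model of `X` over
  an open part of `S`; then `i = j + dim S`), and cycle classes restrict to cycle classes. This
  follows from the theory of weights, see the note in the main file.
* `constant`: an invariant class `v` of a variety `X₀` over `k₀` remains invariant on `X = X₀ × k`, and
  if it becomes a combination of classes of subvarieties there, then it is one on `X₀`
  (specialization to a closed point of `S` and direct image). -/
structure IsExtension {k₀ : Type u'} [Field k₀] {Γ₀ : Type w'} [Group Γ₀]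
    (𝓗₀ : HomologyData k₀ K Γ₀) (𝓗 : HomologyData k K Γ) : Prop where
  spread : ∀ X j v, IsInvariant 𝓗 X j v → ∃ X₀ i r, IsSpecialization 𝓗₀ 𝓗 X₀ i X j r ∧
    ∃ u ∈ unipotentPart 𝓗₀ X₀ i, r u = v
  constant : ∀ X₀ j v, IsInvariant 𝓗₀ X₀ j v →
    ∃ (X : Variety k) (b : 𝓗₀.H X₀ j → 𝓗.H X j), IsInvariant 𝓗 X j (b v) ∧
      (b v ∈ cycles 𝓗 X j → v ∈ cycles 𝓗₀ X₀ j)

/-- Part (1): the conjecture for the complements of `j`-dimensional subvarieties of `X` implies the
conjecture for `X` and the absence of self-extensions. -/
def OpenImpliesSemisimple (𝓗 : HomologyData k K Γ) : Prop :=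
  ∀ X j, (∀ U, IsSmallComplement U X j → Tate 𝓗 U j) → Tate 𝓗 X j ∧ NoSelfExtensions 𝓗 X j

/-- Part (3): the conjecture for all open subvarieties, the conjecture for the complements of
`j`-dimensional subvarieties, the conjecture for `X` together with the absence of self-extensions, and
the conjecture for all quotients of `H X j` are equivalent. -/
def OpenCriterion (𝓗 : HomologyData k K Γ) (X : Variety k) (j : ℕ) : Prop :=
  [∀ U, IsOpenIn U X → Tate 𝓗 U j, ∀ U, IsSmallComplement U X j → Tate 𝓗 U j,
    Tate 𝓗 X j ∧ NoSelfExtensions 𝓗 X j, TateQuotients 𝓗 X j].TFAE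

/-- Part (4): the conjecture for all varieties (of dimension at most `d`) is equivalent to the
conjecture and the absence of self-extensions for the members of `P` (of dimension at most `d`), and to
the conjecture for the complements of `j`-dimensional subvarieties in members of `P`. -/
def ProjectiveCriterion (𝓗 : HomologyData k K Γ) (P : Variety k → Prop) : Prop :=
  (∀ d j, (∀ X, DimLE X d → Tate 𝓗 X j) ↔
    ∀ Y, P Y → DimLE Y d → Tate 𝓗 Y j ∧ NoSelfExtensions 𝓗 Y j) ∧
  (TateForAll 𝓗 ↔ ∀ Y, P Y → ∀ j, Tate 𝓗 Y j ∧ NoSelfExtensions 𝓗 Y j) ∧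
  (TateForAll 𝓗 ↔ ∀ Y, P Y → ∀ j U, IsSmallComplement U Y j → Tate 𝓗 U j)

/-- Part (5): the conjecture for all varieties is equivalent to the equality of the rank of the group
of cycles modulo numerical equivalence (in the dimension `i`) and of the order of the pole, for the
members of `P`. (The rank is never larger than the order of the pole.) -/
def NumericalCriterion (𝓗 : HomologyData k K Γ) (P : Variety k → Prop) (I : Intersections k) :
    Prop :=
  TateForAll 𝓗 ↔ ∀ Y, P Y → ∀ i j, i + j = I.dim Y →
    NumericalRankGE I Y i j (poleOrder 𝓗 Y i)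

/-- The orders of the poles for the two theories are the same. -/
def SamePoleOrders (P : Variety k → Prop) (𝓗 : HomologyData k K Γ) {K' : Type v'} [Field K']
    {Γ' : Type w'} [Group Γ'] (𝓗' : HomologyData k K' Γ') : Prop :=
  ∀ Y, P Y → ∀ i, poleOrder 𝓗 Y i = poleOrder 𝓗' Y i

end Pool.Agent.V7H2.TS
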