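import Pool.Agent.V7H2.TS.Main
import Pool.Agent.V7H2.TS.Defs

/-!
# From unbundled to bundled homology theories
-/

open CategoryTheory AlgebraicGeometry

universe u u' v v' w w'

namespace Pool.Agent.V7H2.TS

variable {k : Type u} [Field k] {K : Type v} [Field K] {Γ : Type w} [Group Γ]

/-- The bundled homology theory. -/
abbrev toInt (𝓗 : HomologyData k K Γ) (hr : IsRepresentation 𝓗) (he : IsEquivariant 𝓗) :
    Int.HomologyData k K Γ where
  H := 𝓗.H
  H' := 𝓗.H'
  instAdd := 𝓗.instAdd
  instMod := 𝓗.instMod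
  instAdd' := 𝓗.instAdd'
  instMod' := 𝓗.instMod'
  act := fun X j =>
    { toFun := fun γ => IsLinearMap.mk' _ (hr.act_linear X j γ)
      map_one' := LinearMap.ext fun v => hr.act_one X j v
      map_mul' := fun γ δ => LinearMap.ext fun v => hr.act_mul X j γ δ v }
  act' := fun X j =>
    { toFun := fun γ => IsLinearMap.mk' _ (hr.act'_linear X j γ)
      map_one' := LinearMap.ext fun v => hr.act'_one X j v
      map_mul' := fun γ δ => LinearMap.ext fun v => hr.act'_mul X j γ δ v }
  cl := 𝓗.cl
  push := fun f hf j => IsLinearMap.mk' _ (he.push_linear f j hf)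
  pull := fun f hf j => IsLinearMap.mk' _ (he.pull_linear f j hf)

variable {𝓗 : HomologyData k K Γ} (hr : IsRepresentation 𝓗) (he : IsEquivariant 𝓗)

theorem tate_toInt (X : Variety k) (j : ℕ) : Int.Tate (toInt 𝓗 hr he) X j ↔ Tate 𝓗 X j := Iff.rfl

theorem noSelf_toInt (X : Variety k) (j : ℕ) :
    Int.NoSelfExtensions (toInt 𝓗 hr he) X j ↔ NoSelfExtensions 𝓗 X j := Iff.rfl

theorem quotients_toInt (X : Variety k) (j : ℕ) :
    Int.TateQuotients (toInt 𝓗 hr he) X j ↔ TateQuotients 𝓗 X j := Iff.rfl

theorem tateForAll_toInt : Int.TateForAll (toInt 𝓗 hr he) ↔ TateForAll 𝓗 := Iff.rfl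

theorem step_toInt (X : Variety k) (j n : ℕ) (v : 𝓗.H X j) :
    v ∈ Int.unipotentStep ((toInt 𝓗 hr he).act X j) n ↔ v ∈ unipotentStep 𝓗 X j n := by
  induction n generalizing v with
  | zero => exact Iff.rfl
  | succ n ih =>
    exact Int.mem_unipotentStep_succ.trans (forall_congr' fun γ => ih _)

theorem unipotentPart_toInt (X : Variety k) (j : ℕ) :
    Int.unipotentPart ((toInt 𝓗 hr he).act X j) = unipotentPart 𝓗 X j := by
  apply le_antisymm
  · refine iSup_le fun n v hv => Submodule.subset_span ⟨n, ?_⟩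
    exact (step_toInt hr he X j n v).1 hv
  · rw [unipotentPart, Submodule.span_le]
    rintro v ⟨n, hn⟩
    exact Int.unipotentStep_le_unipotentPart n ((step_toInt hr he X j n v).2 hn)

theorem poleOrder_toInt (X : Variety k) (j : ℕ) :
    Int.poleOrder (toInt 𝓗 hr he) X j = poleOrder 𝓗 X j := by
  rw [Int.poleOrder, unipotentPart_toInt]
  rfl

theorem isHomologyTheory_toInt (h : IsHomologyTheory 𝓗) :
    Int.IsHomologyTheory (toInt 𝓗 h.representation h.equivariant) where
  equivariant :=
    { finite := h.representation.finite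
      push_act := fun f hf j γ v => h.equivariant.push_act f j hf γ v
      pull_act := fun f hf j γ v => h.equivariant.pull_act f j hf γ v }
  cycleClasses :=
    { act_cl := fun X j x γ hx => h.cycleClasses.act_cl X j x hx γ
      push_cl := fun f hf j x hx => h.cycleClasses.push_cl f j x hf hx
      pull_cl := fun f hf j y hy => h.cycleClasses.pull_cl f j y hf hy
      pull_cl_zero := fun f hf j x hx hr => h.cycleClasses.pull_cl_zero f j x hf hx hr }
  localization := by
    intro Z U X i f _ _ hi j
    obtain ⟨h1, b, hb, hb0⟩ := h.localization i f hi j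
    exact ⟨h1, IsLinearMap.mk' b hb.linear, hb.equivariant, hb0⟩
  weights :=
    { odd := fun Z j M hM v hv => h.weights.odd Z j M hM v hv
      cokernel := fun g hg hs j M hM hle v hv => h.weights.cokernel g j hg hs.surj M hM
        (fun w => hle ⟨w, rfl⟩) v hv }
  fundamental := fun Z j hZ => h.fundamental Z j hZ

theorem hasLifting_toInt :
    Int.HasLifting (toInt 𝓗 hr he) ↔ HasLifting 𝓗 := by
  constructor
  · intro h X j M hM v hv
    obtain ⟨e, h1, h2⟩ := h X j M hM v hv
    rw [unipotentPart_toInt] at h1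
    exact ⟨e, h1, h2⟩
  · intro h X j M hM v hv
    obtain ⟨e, h1, h2⟩ := h X j M hM v hv
    rw [← unipotentPart_toInt hr he] at h1
    exact ⟨e, h1, h2⟩

theorem hasDuality_toInt {I : Intersections k} {P : Variety k → Prop} (h : HasDuality 𝓗 I P) :
    Int.HasDuality (toInt 𝓗 hr he) I P := by
  intro Y hY
  refine ⟨(h Y hY).1, fun i j hij => ?_⟩
  obtain ⟨B, hB⟩ := (h Y hY).2 i j hij
  refine ⟨LinearMap.mk₂ K B ?_ ?_ ?_ ?_, ?_⟩
  · exact fun u u' v => (hB.bilinear.left v).map_add u u'
  · exact fun c u v => (hB.bilinear.left v).map_smul c u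
  · exact fun u v v' => (hB.bilinear.right u).map_add v v'
  · exact fun c u v => (hB.bilinear.right u).map_smul c v
  · exact
      { invariant := hB.invariant
        left := hB.left
        right := hB.right
        number := hB.number }

theorem tateForAll_of_extension {k' : Type u'} [Field k'] {Γ' : Type w'} [Group Γ']
    {𝓗' : HomologyData k' K Γ'} (h : IsExtension 𝓗 𝓗') : TateForAll 𝓗 → IsHomologyTheory 𝓗 → HasLifting 𝓗 →
      TateForAll 𝓗' := by
  intro h1 hh hL X j v hv
  obtain ⟨X₀, i, r, hs, u, hu, hur⟩ := h.spread X j v hv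
  have hh' := isHomologyTheory_toInt hh
  have hL' := (hasLifting_toInt hh.representation hh.equivariant).2 hL
  have h2 := (Int.tate_iff_noSelfExtensions hh' hL' X₀ i).2
    (Int.tate_and_noSelfExtensions hh' X₀ i fun U _ => h1 U i)
  rw [← unipotentPart_toInt hh.representation hh.equivariant] at hu
  have h3 : u ∈ cycles 𝓗 X₀ i := Int.unipotentPart_le_cycles h2 hh'.functorial hu
  rw [← hur]
  have h4 : cycles 𝓗 X₀ i ≤ (cycles 𝓗' X j).comap (IsLinearMap.mk' r hs.linear) := by
    rw [cycles, Submodule.span_le]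
    rintro _ ⟨x, hx, rfl⟩
    exact hs.classes x hx
  exact h4 h3

end Pool.Agent.V7H2.TS
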