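import Pool.Agent.V7H2.TS.Base

/-!
# The dimension of points is preserved by immersions
-/

open CategoryTheory AlgebraicGeometry

universe u v v' w w'

namespace Pool.Agent.V7H2.TS

variable {k : Type u} [Field k]

theorem residueFieldMap_surjective {X Y : Scheme.{u}} (f : X ⟶ Y) [SurjectiveOnStalks f] (x : X) :
    Function.Surjective (f.residueFieldMap x).hom := by
  intro a
  obtain ⟨b, hb⟩ := IsLocalRing.residue_surjective (R := X.presheaf.stalk x) a
  obtain ⟨c, hc⟩ := f.stalkMap_surjective x b
  refine ⟨(Y.residue (f x)).hom c, ?_⟩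
  have h := Scheme.residue_residueFieldMap f x
  have h1 := congrArg (fun g => g.hom c) h
  refine Eq.trans ?_ (h1.trans ?_)
  · rfl
  · rw [← hb, ← hc]
    rfl

theorem residueHom_comp {X Y : Variety k} (f : X.sch ⟶ Y.sch) (x : X.Pt) :
    (f.left.residueFieldMap x).hom.comp (residueHom Y (f.left x)) = residueHom X x := by
  have h : Spec.preimage (Y.sch.left.fromSpecResidueField (f.left x) ≫ Y.sch.hom) ≫
      f.left.residueFieldMap x =
      Spec.preimage (X.sch.left.fromSpecResidueField x ≫ X.sch.hom) := by
    apply Spec.map_injective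
    rw [Spec.map_comp, Spec.map_preimage, Spec.map_preimage,
      Scheme.Hom.SpecMap_residueFieldMap_fromSpecResidueField_assoc, Over.w]
  have h1 := congrArg (fun g => g.hom) h
  exact h1

theorem dimension_eq {X Y : Variety k} (f : X.sch ⟶ Y.sch) [SurjectiveOnStalks f.left] (x : X.Pt) :
    dimension X x = dimension Y (f.left x) := by
  letI := (residueHom X x).toAlgebra
  letI := (residueHom Y (f.left x)).toAlgebra
  have hbij : Function.Bijective (f.left.residueFieldMap x).hom :=
    ⟨(f.left.residueFieldMap x).hom.injective, residueFieldMap_surjective f.left x⟩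
  let e : Y.sch.left.residueField (f.left x) ≃ₐ[k] X.sch.left.residueField x :=
    AlgEquiv.ofBijective
      { (f.left.residueFieldMap x).hom with
        commutes' := fun r => RingHom.congr_fun (residueHom_comp f x) r } hbij
  exact e.symm.trdeg_eq

end Pool.Agent.V7H2.TS
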