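import Pool.Agent.V7H2.TS.Base

/-!
# Homology theories: the definitions with bundled linear maps, used in the proofs
-/

open CategoryTheory AlgebraicGeometry

universe u u' v v' w w'

namespace Pool.Agent.V7H2.TS.Int

/-- The data of a homology theory with coefficients in the field `K` on the varieties over `k`, with
an action of the group `Γ`. Example: `H X j` is the homology `H_(2j)(X, ℚ_ℓ(j))` and `H' X j` is
`H_(2j-1)(X, ℚ_ℓ(j))` over the separable closure of `k` (étale Borel-Moore homology), `Γ` is the
Galois group of `k`, and `cl X j x` is the fundamental class of the closed subvariety with generic point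
`x`, if it has dimension `j` (otherwise the value is not used). -/
structure HomologyData (k : Type u) [Field k] (K : Type v) [Field K] (Γ : Type w) [Group Γ] where
  H : Variety k → ℕ → Type v
  H' : Variety k → ℕ → Type v
  instAdd : ∀ X j, AddCommGroup (H X j)
  instMod : ∀ X j, Module K (H X j)
  instAdd' : ∀ X j, AddCommGroup (H' X j)
  instMod' : ∀ X j, Module K (H' X j)
  act : ∀ X j, Representation K Γ (H X j)
  act' : ∀ X j, Representation K Γ (H' X j)
  cl : ∀ (X : Variety k) (j : ℕ), X.Pt → H X j
  push : ∀ {X Y : Variety k} (f : X.sch ⟶ Y.sch) [IsProper f.left] (j : ℕ), H X j →ₗ[K] H Y j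
  pull : ∀ {U X : Variety k} (f : U.sch ⟶ X.sch) [IsOpenImmersion f.left] (j : ℕ),
    H X j →ₗ[K] H U j

attribute [instance] HomologyData.instAdd HomologyData.instMod HomologyData.instAdd'
  HomologyData.instMod'

variable {k : Type u} [Field k] {K : Type v} [Field K] {Γ : Type w} [Group Γ]

/-- The space spanned by the classes of the closed subvarieties of dimension `j`. -/
def cycles (𝓗 : HomologyData k K Γ) (X : Variety k) (j : ℕ) : Submodule K (𝓗.H X j) :=
  Submodule.span K {v | ∃ x : X.Pt, dimension X x = j ∧ 𝓗.cl X j x = v}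

/-- The subspace `M` is stable under the group. -/
def IsStable {V : Type v} [AddCommGroup V] [Module K V] (ρ : Representation K Γ V)
    (M : Submodule K V) : Prop :=
  ∀ γ, ∀ m ∈ M, ρ γ m ∈ M

/-- The class of `v` modulo `M` is invariant. -/
def IsInvMod {V : Type v} [AddCommGroup V] [Module K V] (ρ : Representation K Γ V)
    (M : Submodule K V) (v : V) : Prop :=
  ∀ γ, ρ γ v - v ∈ M

/-- The question for `X` and `j`: the map `c_j` is surjective, that is, every invariant class is a
combination of classes of `j`-dimensional subvarieties. -/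
def Tate (𝓗 : HomologyData k K Γ) (X : Variety k) (j : ℕ) : Prop :=
  ∀ v : 𝓗.H X j, (∀ γ, 𝓗.act X j γ v = v) → v ∈ cycles 𝓗 X j

/-- The space `V = H X j` has no nonzero invariant modulo `V ^ Γ`: it contains no nontrivial
extension of the trivial representation by itself. If `Γ` is generated by a Frobenius element
`F`, this says that `1` is a semisimple eigenvalue: `(F - 1) ^ 2 v = 0` implies `(F - 1) v = 0`. -/
def NoSelfExtensions (𝓗 : HomologyData k K Γ) (X : Variety k) (j : ℕ) : Prop :=
  ∀ v : 𝓗.H X j, (∀ γ δ, 𝓗.act X j δ (𝓗.act X j γ v - v) = 𝓗.act X j γ v - v) →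
    ∀ γ, 𝓗.act X j γ v = v

/-- The question for all quotients of the representation: for all stable subspaces `M` of `H X j`
every class that is invariant modulo `M` is modulo `M` a combination of classes of subvarieties. -/
def TateQuotients (𝓗 : HomologyData k K Γ) (X : Variety k) (j : ℕ) : Prop :=
  ∀ M : Submodule K (𝓗.H X j), IsStable (𝓗.act X j) M → ∀ v, IsInvMod (𝓗.act X j) M v →
    ∃ a ∈ cycles 𝓗 X j, v - a ∈ M

/-- The `n`-th step of the unipotent filtration: zero for `n = 0`, and then the vectors which are
invariant modulo the step before. -/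
def unipotentStep {V : Type v} [AddCommGroup V] [Module K V] (ρ : Representation K Γ V) :
    ℕ → Submodule K V
  | 0 => ⊥
  | n + 1 => ⨅ γ, (unipotentStep ρ n).comap (ρ γ - LinearMap.id)

/-- The largest subspace on which the group acts unipotently. If `Γ` is generated by a Frobenius
element, this is the generalized eigenspace for the eigenvalue `1`. -/
def unipotentPart {V : Type v} [AddCommGroup V] [Module K V] (ρ : Representation K Γ V) :
    Submodule K V :=
  ⨆ n, unipotentStep ρ n

/-- The spaces are finite dimensional and the operations are equivariant. -/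
structure IsEquivariant (𝓗 : HomologyData k K Γ) : Prop where
  finite : ∀ X j, Module.Finite K (𝓗.H X j)
  push_act : ∀ {X Y : Variety k} (f : X.sch ⟶ Y.sch) [IsProper f.left] (j : ℕ) (γ : Γ)
    (v : 𝓗.H X j), 𝓗.push f j (𝓗.act X j γ v) = 𝓗.act Y j γ (𝓗.push f j v)
  pull_act : ∀ {U X : Variety k} (f : U.sch ⟶ X.sch) [IsOpenImmersion f.left] (j : ℕ) (γ : Γ)
    (v : 𝓗.H X j), 𝓗.pull f j (𝓗.act X j γ v) = 𝓗.act U j γ (𝓗.pull f j v)

/-- The classes of subvarieties of dimension `j` are invariant, the direct image of such a class is a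
combination of such classes, and the restriction to an open subvariety `U` of such a class is the
class of the intersection with `U`. -/
structure HasCycleClasses (𝓗 : HomologyData k K Γ) : Prop where
  act_cl : ∀ (X : Variety k) (j : ℕ) (x : X.Pt) (γ : Γ), dimension X x = j →
    𝓗.act X j γ (𝓗.cl X j x) = 𝓗.cl X j x
  push_cl : ∀ {X Y : Variety k} (f : X.sch ⟶ Y.sch) [IsProper f.left] (j : ℕ) (x : X.Pt),
    dimension X x = j → 𝓗.push f j (𝓗.cl X j x) ∈ cycles 𝓗 Y j
  pull_cl : ∀ {U X : Variety k} (f : U.sch ⟶ X.sch) [IsOpenImmersion f.left] (j : ℕ)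
    (y : U.Pt), dimension U y = j → 𝓗.pull f j (𝓗.cl X j (f.left y)) = 𝓗.cl U j y
  pull_cl_zero : ∀ {U X : Variety k} (f : U.sch ⟶ X.sch) [IsOpenImmersion f.left] (j : ℕ)
    (x : X.Pt), dimension X x = j → x ∉ Set.range f.left → 𝓗.pull f j (𝓗.cl X j x) = 0

/-- The localisation sequence `H_(2j)(Z, j) → H_(2j)(X, j) → H_(2j)(U, j) → H_(2j-1)(Z, j)` is exact. -/
def HasLocalization (𝓗 : HomologyData k K Γ) : Prop :=
  ∀ {Z U X : Variety k} (i : Z.sch ⟶ X.sch) (f : U.sch ⟶ X.sch) [IsProper i.left]
    [IsOpenImmersion f.left] (_ : IsComplementary i f) (j : ℕ),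
    (∀ v, 𝓗.pull f j v = 0 ↔ ∃ z, 𝓗.push i j z = v) ∧
    ∃ b : 𝓗.H U j →ₗ[K] 𝓗.H' Z j, (∀ γ v, b (𝓗.act U j γ v) = 𝓗.act' Z j γ (b v)) ∧
      ∀ v, b v = 0 ↔ ∃ w, 𝓗.pull f j w = v

/-- Consequences of the theory of weights (Deligne): the weights of `H_(2j-1)(Z, j)` and of the
cokernel of `H_(2j)(W, j) → H_(2j)(X, j)`, for a proper surjective morphism `W → X`, are positive, so
these spaces have no nonzero subquotient with the trivial action. -/
structure HasWeights (𝓗 : HomologyData k K Γ) : Prop where
  odd : ∀ (Z : Variety k) (j : ℕ) (M : Submodule K (𝓗.H' Z j)), IsStable (𝓗.act' Z j) M →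
    ∀ v, IsInvMod (𝓗.act' Z j) M v → v ∈ M
  cokernel : ∀ {W X : Variety k} (g : W.sch ⟶ X.sch) [IsProper g.left] [Surjective g.left]
    (j : ℕ) (M : Submodule K (𝓗.H X j)), IsStable (𝓗.act X j) M → (𝓗.push g j).range ≤ M →
    ∀ v, IsInvMod (𝓗.act X j) M v → v ∈ M

/-- For a variety `Z` all of whose components have dimension `j`, the homology `H_(2j)(Z, j)` is the
permutation representation on the set of the geometric components, so that the invariants in all its
quotients are combinations of classes of components. -/
def HasFundamentalClasses (𝓗 : HomologyData k K Γ) : Prop :=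
  ∀ (Z : Variety k) (j : ℕ), IsPure Z j → TateQuotients 𝓗 Z j

/-- A homology theory with weights: all the properties above. The étale homology of varieties over
a finitely generated field `k` has these properties (Grothendieck, Deligne), with `K = ℚ_ℓ`, `ℓ`
different from the characteristic, and the Galois group `Γ`. -/
structure IsHomologyTheory (𝓗 : HomologyData k K Γ) : Prop where
  equivariant : IsEquivariant 𝓗
  cycleClasses : HasCycleClasses 𝓗
  localization : HasLocalization 𝓗
  weights : HasWeights 𝓗
  fundamental : HasFundamentalClasses 𝓗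

/-- The invariants lift: if `v` is invariant modulo a stable subspace `M`, then it is modulo `M`
congruent to an element of the unipotent part. This holds automatically if `Γ` is generated by one
element (for finite fields `k`), and by the theorem of Deligne on the geometric semisimplicity of pure
sheaves if `k` is finitely generated of positive characteristic. -/
def HasLifting (𝓗 : HomologyData k K Γ) : Prop :=
  ∀ (X : Variety k) (j : ℕ) (M : Submodule K (𝓗.H X j)), IsStable (𝓗.act X j) M →
    ∀ v, IsInvMod (𝓗.act X j) M v → ∃ e ∈ unipotentPart (𝓗.act X j), v - e ∈ M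

/-- The bilinear form `B` on `H Y i × H Y j` is invariant, nondegenerate, and its values on the classes
of subvarieties are the intersection numbers. -/
structure IsPairing (𝓗 : HomologyData k K Γ) (I : Intersections k) (Y : Variety k) (i j : ℕ)
    (B : 𝓗.H Y i →ₗ[K] 𝓗.H Y j →ₗ[K] K) : Prop where
  invariant : ∀ γ u v, B (𝓗.act Y i γ u) (𝓗.act Y j γ v) = B u v
  left : ∀ u, (∀ v, B u v = 0) → u = 0
  right : ∀ v, (∀ u, B u v = 0) → v = 0
  number : ∀ x y : Y.Pt, dimension Y x = i → dimension Y y = j →
    B (𝓗.cl Y i x) (𝓗.cl Y j y) = (I.number Y x y : K)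

/-- Poincaré duality for the members of `P` (smooth projective varieties of pure dimension). -/
def HasDuality (𝓗 : HomologyData k K Γ) (I : Intersections k) (P : Variety k → Prop) : Prop :=
  ∀ Y, P Y → (∀ j, I.dim Y < j → ∀ v : 𝓗.H Y j, v = 0) ∧
    ∀ i j, i + j = I.dim Y → ∃ B, IsPairing 𝓗 I Y i j B

/-- The dimension of the unipotent part of `H Y i`. For a finite field `k` and a smooth projective
variety `Y` this is the order of the pole of the zeta function `ζ(Y, s)` at `s = i`. -/
noncomputable def poleOrder (𝓗 : HomologyData k K Γ) (Y : Variety k) (i : ℕ) : ℕ :=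
  Module.finrank K (unipotentPart (𝓗.act Y i))

/-- The question for all varieties and all `j`. -/
def TateForAll (𝓗 : HomologyData k K Γ) : Prop := ∀ X j, Tate 𝓗 X j

/-- The relations between a homology theory `𝓗₀` over a finite field `k₀` and a theory `𝓗`, with the same
coefficients, over a finitely generated extension field `k`, the function field of `S`.

* `spread`: an invariant class `v` on a variety `X` over `k` is the restriction to the generic fibre of
  an element of the unipotent part of the homology of a variety `X₀` over `k₀` (a model of `X` over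
  an open part of `S`; then `i = j + dim S`), and cycle classes restrict to cycle classes. This
  follows from the theory of weights, see the note in the main file.
* `constant`: an invariant class `v` of a variety `X₀` over `k₀` remains invariant on `X = X₀ × k`, and
  if it becomes a combination of classes of subvarieties there, then it is one on `X₀`
  (specialization to a closed point of `S` and direct image). -/
structure IsExtension {k₀ : Type u'} [Field k₀] {Γ₀ : Type w'} [Group Γ₀]
    (𝓗₀ : HomologyData k₀ K Γ₀) (𝓗 : HomologyData k K Γ) : Prop where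
  spread : ∀ (X : Variety k) (j : ℕ) (v : 𝓗.H X j), (∀ γ, 𝓗.act X j γ v = v) →
    ∃ (X₀ : Variety k₀) (i : ℕ) (r : 𝓗₀.H X₀ i →ₗ[K] 𝓗.H X j),
      (∃ u ∈ unipotentPart (𝓗₀.act X₀ i), r u = v) ∧ (cycles 𝓗₀ X₀ i).map r ≤ cycles 𝓗 X j
  constant : ∀ (X₀ : Variety k₀) (j : ℕ) (v : 𝓗₀.H X₀ j), (∀ γ, 𝓗₀.act X₀ j γ v = v) →
    ∃ (X : Variety k) (b : 𝓗₀.H X₀ j →ₗ[K] 𝓗.H X j), (∀ γ, 𝓗.act X j γ (b v) = b v) ∧
      (b v ∈ cycles 𝓗 X j → v ∈ cycles 𝓗₀ X₀ j)

end Pool.Agent.V7H2.TS.Int
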