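import Pool.Agent.V7H2.TS.Dim
import Pool.Agent.V7H2.TS.IntDefs

/-!
# The formal properties together
-/

open CategoryTheory AlgebraicGeometry

universe u u' v v' w w'

namespace Pool.Agent.V7H2.TS.Int

variable {k : Type u} [Field k] {K : Type v} [Field K] {Γ : Type w} [Group Γ]

/-- Equivariant operations and cycle classes. -/
structure IsFunctorial (𝓗 : HomologyData k K Γ) : Prop extends IsEquivariant 𝓗,
    HasCycleClasses 𝓗

theorem IsHomologyTheory.functorial {𝓗 : HomologyData k K Γ} (h : IsHomologyTheory 𝓗) :
    IsFunctorial 𝓗 :=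
  { h.equivariant, h.cycleClasses with }

end Pool.Agent.V7H2.TS.Int
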