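import Pool.Agent.V7H2.TS.IntDefs

/-!
# Linear algebra: invariants modulo stable subspaces and the unipotent part
-/

universe u v v' w w'

namespace Pool.Agent.V7H2.TS.Int

variable {K : Type v} [Field K] {Γ : Type w} [Group Γ]

section rep

variable {V : Type v} [AddCommGroup V] [Module K V] {ρ : Representation K Γ V}

theorem mem_unipotentStep_succ {n : ℕ} {v : V} :
    v ∈ unipotentStep ρ (n + 1) ↔ ∀ γ, ρ γ v - v ∈ unipotentStep ρ n := by
  rw [unipotentStep, Submodule.mem_iInf]
  rfl

theorem rho_mul (γ δ : Γ) (v : V) : ρ (γ * δ) v = ρ γ (ρ δ v) := by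
  rw [map_mul]
  rfl

theorem rho_inv (γ : Γ) (v : V) : ρ γ (ρ γ⁻¹ v) = v := by
  rw [← rho_mul, mul_inv_cancel, map_one]
  rfl

theorem rho_inv' (γ : Γ) (v : V) : ρ γ⁻¹ (ρ γ v) = v := by
  rw [← rho_mul, inv_mul_cancel, map_one]
  rfl

theorem isStable_unipotentStep (n : ℕ) : IsStable ρ (unipotentStep ρ n) := by
  induction n with
  | zero =>
    intro γ m hm
    have : m = 0 := hm
    rw [this, map_zero]
    exact Submodule.zero_mem _
  | succ n ih =>
    intro δ v hv
    rw [mem_unipotentStep_succ] at hv ⊢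
    intro γ
    have h := ih δ _ (hv (δ⁻¹ * γ * δ))
    rw [map_sub] at h
    have e : ρ δ (ρ (δ⁻¹ * γ * δ) v) = ρ γ (ρ δ v) := by
      rw [← rho_mul, ← rho_mul]
      congr 2
      group
    rwa [e] at h

/-- The elements which fix `v` modulo `M` form a subgroup. -/
def fixMod (ρ : Representation K Γ V) (M : Submodule K V) (hM : IsStable ρ M) (v : V) :
    Subgroup Γ where
  carrier := {γ | ρ γ v - v ∈ M}
  mul_mem' := by
    intro γ δ hγ hδ
    have h : ρ (γ * δ) v - v = ρ γ (ρ δ v - v) + (ρ γ v - v) := by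
      rw [rho_mul, map_sub]
      abel
    change ρ (γ * δ) v - v ∈ M
    rw [h]
    exact M.add_mem (hM γ _ hδ) hγ
  one_mem' := by
    change ρ 1 v - v ∈ M
    rw [map_one]
    change v - v ∈ M
    rw [sub_self]
    exact M.zero_mem
  inv_mem' := by
    intro γ hγ
    change ρ γ⁻¹ v - v ∈ M
    have h : ρ γ⁻¹ v - v = - ρ γ⁻¹ (ρ γ v - v) := by
      rw [map_sub, rho_inv']
      abel
    rw [h]
    exact M.neg_mem (hM _ _ hγ)

theorem isInvMod_of_generator {F : Γ} (hF : ∀ γ, γ ∈ Subgroup.zpowers F) {M : Submodule K V}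
    (hM : IsStable ρ M) {v : V} (hv : ρ F v - v ∈ M) : IsInvMod ρ M v := by
  intro γ
  have h : Subgroup.zpowers F ≤ fixMod ρ M hM v := by
    rw [Subgroup.zpowers_le]
    exact hv
  exact h (hF γ)

theorem ker_pow_le_unipotentStep {F : Γ} (hF : ∀ γ, γ ∈ Subgroup.zpowers F) (n : ℕ) {v : V}
    (hv : ((ρ F - LinearMap.id : Module.End K V) ^ n) v = 0) : v ∈ unipotentStep ρ n := by
  induction n generalizing v with
  | zero =>
    have h0 : v = 0 := hv
    rw [h0]
    exact Submodule.zero_mem _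
  | succ n ih =>
    rw [mem_unipotentStep_succ]
    have h : ρ F v - v ∈ unipotentStep ρ n := by
      apply ih
      rw [pow_succ] at hv
      exact hv
    exact isInvMod_of_generator hF (isStable_unipotentStep n) h

theorem unipotentStep_le_unipotentPart (n : ℕ) : unipotentStep ρ n ≤ unipotentPart ρ :=
  le_iSup (unipotentStep ρ) n

/-- **Lifting of invariants for a group with one generator.** -/
theorem lifting_of_generator [Module.Finite K V] {F : Γ} (hF : ∀ γ, γ ∈ Subgroup.zpowers F)
    {M : Submodule K V} (hM : IsStable ρ M) {v : V} (hv : IsInvMod ρ M v) :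
    ∃ e ∈ unipotentPart ρ, v - e ∈ M := by
  set T : Module.End K V := ρ F - LinearMap.id with hT
  have hTM : M ≤ M.comap T := by
    intro m hm
    change ρ F m - m ∈ M
    exact M.sub_mem (hM F m hm) hm
  have hTv : T v ∈ M := hv F
  set n := Module.finrank K V with hn
  have hc : IsCompl (LinearMap.ker (T ^ n)) (LinearMap.range (T ^ n)) := by
    have h1 : Disjoint (LinearMap.ker (T ^ n)) (LinearMap.range (T ^ n)) := by
      rw [Submodule.disjoint_def]
      rintro x hx ⟨y, rfl⟩
      have hx' : (T ^ (n + n)) y = 0 := by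
        rw [pow_add]
        exact hx
      have : y ∈ LinearMap.ker (T ^ (n + n)) := hx'
      rw [Module.End.ker_pow_eq_ker_pow_finrank_of_le (by omega : Module.finrank K V ≤ n + n),
        ← hn] at this
      exact this
    refine ⟨h1, ?_⟩
    rw [codisjoint_iff]
    apply Submodule.eq_top_of_finrank_eq
    have h2 := Submodule.finrank_sup_add_finrank_inf_eq (LinearMap.ker (T ^ n))
      (LinearMap.range (T ^ n))
    rw [disjoint_iff.1 h1, finrank_bot, add_zero] at h2
    rw [h2, add_comm]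
    exact LinearMap.finrank_range_add_finrank_ker (T ^ n)
  have hsup : v ∈ LinearMap.ker (T ^ n) ⊔ LinearMap.range (T ^ n) := by
    rw [hc.sup_eq_top]
    trivial
  obtain ⟨e, he, c, ⟨c', hc'⟩, hec⟩ := Submodule.mem_sup.1 hsup
  refine ⟨e, unipotentStep_le_unipotentPart n (ker_pow_le_unipotentStep hF n he), ?_⟩
  have hve : v - e = c := by rw [← hec]; abel
  rw [hve]
  -- in the quotient
  let Tq : Module.End K (V ⧸ M) := M.mapQ M T hTM
  have hq : ∀ m x, (Tq ^ m) (M.mkQ x) = M.mkQ ((T ^ m) x) := by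
    intro m
    induction m with
    | zero => intro x; rfl
    | succ m ih =>
      intro x
      rw [pow_succ, pow_succ]
      change (Tq ^ m) (Tq (M.mkQ x)) = M.mkQ ((T ^ m) (T x))
      rw [← ih]
      rfl
  have h1 : (Tq ^ (n + 1)) (M.mkQ c) = 0 := by
    have : c = v - e := hve.symm
    rw [this, hq, map_sub, pow_succ]
    change M.mkQ ((T ^ n) (T v) - (T ^ n) (T e)) = 0
    have h2 : (T ^ n) (T e) = T ((T ^ n) e) := by
      change ((T ^ n) * T) e = (T * (T ^ n)) e
      rw [← pow_succ, ← pow_succ']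
    rw [h2, show (T ^ n) e = 0 from he, map_zero, sub_zero, ← hq]
    have h3 : M.mkQ (T v) = 0 := by
      rw [Submodule.mkQ_apply, Submodule.Quotient.mk_eq_zero]
      exact hTv
    rw [h3, map_zero]
  have h4 : (Tq ^ (n + 1 + n)) (M.mkQ c') = 0 := by
    rw [pow_add]
    change (Tq ^ (n + 1)) ((Tq ^ n) (M.mkQ c')) = 0
    rw [hq n, hc', h1]
  have h5 : (Tq ^ n) (M.mkQ c') = 0 := by
    have h6 : Module.finrank K (V ⧸ M) ≤ n := Submodule.finrank_quotient_le M
    have : M.mkQ c' ∈ LinearMap.ker (Tq ^ (n + 1 + n)) := h4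
    rw [Module.End.ker_pow_eq_ker_pow_finrank_of_le (by omega),
      ← Module.End.ker_pow_eq_ker_pow_finrank_of_le h6] at this
    exact this
  rw [hq, hc', Submodule.mkQ_apply, Submodule.Quotient.mk_eq_zero] at h5
  exact h5

end rep

end Pool.Agent.V7H2.TS.Int
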