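import Pool.Agent.V7H2.TS.Num

/-!
# The equivalences
-/

open CategoryTheory AlgebraicGeometry TopologicalSpace

universe u u' v v' w w'

namespace Pool.Agent.V7H2.TS.Int

variable {k : Type u} [Field k] {K : Type v} [Field K] {Γ : Type w} [Group Γ]
  {𝓗 : HomologyData k K Γ}

theorem hasLifting_of_generator (h : IsFunctorial 𝓗)
    (hF : ∃ F : Γ, ∀ γ, γ ∈ Subgroup.zpowers F) : HasLifting 𝓗 := by
  obtain ⟨F, hF⟩ := hF
  intro X j M hM v hv
  have := h.finite X j
  exact lifting_of_generator hF hM hv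

theorem isComplementary_refl (X : Variety k) :
    IsComplementary (closedSubι X ⊥) (𝟙 X.sch) := by
  refine ⟨inferInstance, ?_, ?_⟩
  · change IsOpenImmersion (𝟙 X.sch.left)
    infer_instance
  · rw [range_closedSubι]
    change (∅ : Set X.sch.left) = (Set.range (𝟙 X.sch.left : X.sch.left ⟶ X.sch.left))ᶜ
    simp

theorem isSmallComplement_refl (X : Variety k) (j : ℕ) : IsSmallComplement X X j := by
  refine ⟨closedSub X ⊥, closedSubι X ⊥, 𝟙 _, ⟨∅, ?_, ?_⟩, isComplementary_refl X⟩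
  · intro z hz
    exact absurd hz (Finset.notMem_empty z)
  · rw [Finset.coe_empty, closure_empty]
    symm
    rw [Set.univ_eq_empty_iff]
    constructor
    intro z
    have h : (closedSubι X ⊥).left z ∈ Set.range (closedSubι X ⊥).left := ⟨z, rfl⟩
    rw [range_closedSubι] at h
    exact h

/-- **The conjecture for the complements of subvarieties of dimension `j`** implies the conjecture for
`X` and the absence of self-extensions. -/
theorem tate_and_noSelfExtensions (h : IsHomologyTheory 𝓗) (X : Variety k) (j : ℕ)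
    (hU : ∀ U : Variety k, IsSmallComplement U X j → Tate 𝓗 U j) :
    Tate 𝓗 X j ∧ NoSelfExtensions 𝓗 X j := by
  have hX := hU X (isSmallComplement_refl X j)
  exact ⟨hX, noSelfExtensions_of_open h X j hU hX⟩

theorem isOpenIn_of_isSmallComplement {U X : Variety k} {j : ℕ} (hU : IsSmallComplement U X j) :
    IsOpenIn U X := by
  obtain ⟨_, _, f, _, h⟩ := hU
  exact ⟨f, h.isOpenImmersion⟩

theorem tfae (h : IsHomologyTheory 𝓗) (hL : HasLifting 𝓗) (X : Variety k) (j : ℕ) :
    [∀ U, IsOpenIn U X → Tate 𝓗 U j, ∀ U, IsSmallComplement U X j → Tate 𝓗 U j,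
      Tate 𝓗 X j ∧ NoSelfExtensions 𝓗 X j, TateQuotients 𝓗 X j].TFAE := by
  tfae_have 1 → 2 := fun h1 U hU => h1 U (isOpenIn_of_isSmallComplement hU)
  tfae_have 2 → 3 := tate_and_noSelfExtensions h X j
  tfae_have 3 → 4 := fun h3 => tateQuotients_of_lifting hL h3.1 h3.2 h.functorial
  tfae_have 4 → 1 := by
    rintro h4 U ⟨f, hf⟩
    exact tate_of_tateQuotients (tateQuotients_open h f h4)
  tfae_finish

theorem tate_iff_noSelfExtensions (h : IsHomologyTheory 𝓗) (hL : HasLifting 𝓗) (X : Variety k)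
    (j : ℕ) : TateQuotients 𝓗 X j ↔ Tate 𝓗 X j ∧ NoSelfExtensions 𝓗 X j :=
  (tfae h hL X j).out 3 2

theorem dimLE_of_isOpenIn {U X : Variety k} (hU : IsOpenIn U X) {d : ℕ} (hX : DimLE X d) :
    DimLE U d := by
  obtain ⟨f, hf⟩ := hU
  intro x
  rw [dimension_eq f x]
  exact hX _

theorem tateQuotients_of_alterations (h : IsHomologyTheory 𝓗) {P : Variety k → Prop}
    (hP : HasAlterations P) (j : ℕ) (X : Variety k)
    (hY : ∀ Y, P Y → (∀ d, DimLE X d → DimLE Y d) → TateQuotients 𝓗 Y j) :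
    TateQuotients 𝓗 X j := by
  obtain ⟨Y, W, f, g, hPY, hd, hf, hg, hs⟩ := hP X
  have hs' : Surjective g.left := ⟨hs⟩
  have hf' : IsOpenImmersion f.left := hf
  have hg' : IsProper g.left := hg
  exact tateQuotients_image h g (tateQuotients_open h f (hY Y hPY hd))

theorem tate_dimLE_iff (h : IsHomologyTheory 𝓗) (hL : HasLifting 𝓗) {P : Variety k → Prop}
    (hP : HasAlterations P) (d j : ℕ) : (∀ X, DimLE X d → Tate 𝓗 X j) ↔
      ∀ Y, P Y → DimLE Y d → Tate 𝓗 Y j ∧ NoSelfExtensions 𝓗 Y j := by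
  constructor
  · intro h1 Y _ hY
    exact tate_and_noSelfExtensions h Y j fun U hU =>
      h1 U (dimLE_of_isOpenIn (isOpenIn_of_isSmallComplement hU) hY)
  · intro h1 X hX
    exact tate_of_tateQuotients (tateQuotients_of_alterations h hP j X fun Y hPY hY =>
      (tate_iff_noSelfExtensions h hL Y j).2 (h1 Y hPY (hY d hX)))

theorem tateForAll_iff_quotients (h : IsHomologyTheory 𝓗) (hL : HasLifting 𝓗)
    {P : Variety k → Prop} (hP : HasAlterations P) : TateForAll 𝓗 ↔
      ∀ Y, P Y → ∀ j, TateQuotients 𝓗 Y j := by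
  constructor
  · intro h1 Y _ j
    exact (tate_iff_noSelfExtensions h hL Y j).2
      (tate_and_noSelfExtensions h Y j fun U _ => h1 U j)
  · intro h1 X j
    exact tate_of_tateQuotients (tateQuotients_of_alterations h hP j X fun Y hPY _ => h1 Y hPY j)

theorem tateForAll_iff (h : IsHomologyTheory 𝓗) (hL : HasLifting 𝓗)
    {P : Variety k → Prop} (hP : HasAlterations P) : TateForAll 𝓗 ↔
      ∀ Y, P Y → ∀ j, Tate 𝓗 Y j ∧ NoSelfExtensions 𝓗 Y j := by
  rw [tateForAll_iff_quotients h hL hP]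
  simp only [tate_iff_noSelfExtensions h hL]

theorem tateForAll_iff_numerical [CharZero K] (h : IsHomologyTheory 𝓗) (hL : HasLifting 𝓗)
    {P : Variety k → Prop} (hP : HasAlterations P) {I : Intersections k}
    (hI : HasDuality 𝓗 I P) : TateForAll 𝓗 ↔ ∀ Y, P Y → ∀ i j, i + j = I.dim Y →
      NumericalRankGE I Y i j (poleOrder 𝓗 Y i) := by
  rw [tateForAll_iff_quotients h hL hP]
  constructor
  · intro h1 Y hY i j hij
    obtain ⟨B, hB⟩ := (hI Y hY).2 i j hij
    exact numericalRank_of_tateQuotients h.functorial hB (h1 Y hY i) (h1 Y hY j)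
  · intro h1 Y hY j
    by_cases hj : j ≤ I.dim Y
    · obtain ⟨i, hi⟩ := Nat.exists_eq_add_of_le hj
      have hij : j + i = I.dim Y := hi.symm
      obtain ⟨B, hB⟩ := (hI Y hY).2 j i hij
      exact (tateQuotients_of_numericalRank h.functorial hL hB (h1 Y hY j i hij)).1
    · intro M _ v _
      refine ⟨0, Submodule.zero_mem _, ?_⟩
      rw [(hI Y hY).1 j (by omega) v, sub_self]
      exact M.zero_mem

theorem tateForAll_extension (h : IsHomologyTheory 𝓗) (hL : HasLifting 𝓗) {k' : Type u'}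
    [Field k'] {Γ' : Type w'} [Group Γ'] {𝓗' : HomologyData k' K Γ'} (hE : IsExtension 𝓗 𝓗') :
    TateForAll 𝓗 ↔ TateForAll 𝓗' := by
  constructor
  · intro h1 X j v hv
    obtain ⟨X₀, i, r, ⟨u, hu, hur⟩, hr⟩ := hE.spread X j v hv
    have h2 : TateQuotients 𝓗 X₀ i := (tate_iff_noSelfExtensions h hL X₀ i).2
      (tate_and_noSelfExtensions h X₀ i fun U _ => h1 U i)
    have h3 := unipotentPart_le_cycles h2 h.functorial hu
    rw [← hur]
    exact hr ⟨u, h3, rfl⟩
  · intro h1 X₀ j v hv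
    obtain ⟨X, b, hb, hb'⟩ := hE.constant X₀ j v hv
    exact hb' (h1 X j _ hb)

end Pool.Agent.V7H2.TS.Int
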