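import Pool.Agent.V7H2.TS.Perm

/-!
# The numerical criterion
-/

open CategoryTheory AlgebraicGeometry

universe u v v' w w'

namespace Pool.Agent.V7H2.TS.Int

section Gram

variable {K : Type v} [Field K] {V W : Type v} [AddCommGroup V] [Module K V] [AddCommGroup W]
  [Module K W]

/-- If the Gram matrix is invertible, every linear functional given by a vector is represented
by a combination of the `y b`. -/
theorem gram_solve {n : ℕ} (B : V →ₗ[K] W →ₗ[K] K) (x : Fin n → V) (y : Fin n → W)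
    (hdet : (Matrix.of fun a b => B (x a) (y b)).det ≠ 0) (φ : Fin n → K) :
    ∃ c : Fin n → K, ∀ a, B (x a) (∑ b, c b • y b) = φ a := by
  set G := Matrix.of fun a b => B (x a) (y b) with hG
  have hu : IsUnit G.det := isUnit_iff_ne_zero.2 hdet
  refine ⟨G⁻¹.mulVec φ, fun a => ?_⟩
  have h1 : G.mulVec (G⁻¹.mulVec φ) = φ := by
    rw [Matrix.mulVec_mulVec, Matrix.mul_nonsing_inv _ hu, Matrix.one_mulVec]
  have h2 := congrFun h1 a
  rw [Matrix.mulVec, dotProduct] at h2
  rw [map_sum, ← h2]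
  refine Finset.sum_congr rfl fun b _ => ?_
  rw [map_smul, smul_eq_mul, mul_comm, hG, Matrix.of_apply]

theorem gram_unique {n : ℕ} (B : V →ₗ[K] W →ₗ[K] K) (x : Fin n → V) (y : Fin n → W)
    (hdet : (Matrix.of fun a b => B (x a) (y b)).det ≠ 0) (c : Fin n → K)
    (hc : ∀ a, B (x a) (∑ b, c b • y b) = 0) : c = 0 := by
  set G := Matrix.of fun a b => B (x a) (y b) with hG
  by_contra hne
  apply hdet
  rw [← Matrix.exists_mulVec_eq_zero_iff]
  refine ⟨c, hne, ?_⟩
  ext a
  rw [Matrix.mulVec, dotProduct, Pi.zero_apply, ← hc a, map_sum]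
  refine Finset.sum_congr rfl fun b _ => ?_
  rw [map_smul, smul_eq_mul, mul_comm, hG, Matrix.of_apply]

theorem gram_linearIndependent {n : ℕ} (B : V →ₗ[K] W →ₗ[K] K) (x : Fin n → V) (y : Fin n → W)
    (hdet : (Matrix.of fun a b => B (x a) (y b)).det ≠ 0) : LinearIndependent K x := by
  rw [Fintype.linearIndependent_iff]
  intro c hc
  have hdet' : (Matrix.of fun a b => B.flip (y a) (x b)).det ≠ 0 := by
    have : (Matrix.of fun a b => B.flip (y a) (x b)) =
        (Matrix.of fun a b => B (x a) (y b)).transpose := by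
      ext a b
      rfl
    rw [this, Matrix.det_transpose]
    exact hdet
  have h := gram_unique B.flip y x hdet' c fun a => by rw [hc, map_zero]
  exact fun i => congrFun h i

theorem finrank_le_of_left (B : V →ₗ[K] W →ₗ[K] K) (A : Submodule K V) (A' : Submodule K W)
    [Module.Finite K V] [Module.Finite K W] (h : ∀ a ∈ A, (∀ b ∈ A', B a b = 0) → a = 0) :
    Module.finrank K A ≤ Module.finrank K A' := by
  let f : A →ₗ[K] Module.Dual K A' :=
    (Module.Dual.transpose (R := K) A'.subtype).comp (B.comp A.subtype)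
  have hf : Function.Injective f := by
    rw [injective_iff_map_eq_zero]
    intro a ha
    apply Subtype.ext
    refine h a.1 a.2 fun b hb => ?_
    exact LinearMap.congr_fun ha ⟨b, hb⟩
  have h1 := LinearMap.finrank_le_finrank_of_injective hf
  rwa [Subspace.dual_finrank_eq] at h1

/-- Two subspaces, spanned by sets, on which the form is nondegenerate, have bases in these sets with
invertible Gram matrix. -/
theorem exists_gram (B : V →ₗ[K] W →ₗ[K] K) (s : Set V) (t : Set W)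
    [Module.Finite K V] [Module.Finite K W]
    (h : ∀ a ∈ Submodule.span K s, (∀ b ∈ Submodule.span K t, B a b = 0) → a = 0)
    (h' : ∀ b ∈ Submodule.span K t, (∀ a ∈ Submodule.span K s, B a b = 0) → b = 0) :
    ∃ (x : Fin (Module.finrank K (Submodule.span K s)) → V)
      (y : Fin (Module.finrank K (Submodule.span K s)) → W), (∀ a, x a ∈ s) ∧ (∀ b, y b ∈ t) ∧
      (Matrix.of fun a b => B (x a) (y b)).det ≠ 0 := by
  have e : Module.finrank K (Submodule.span K t) = Module.finrank K (Submodule.span K s) :=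
    le_antisymm (finrank_le_of_left B.flip _ _ h') (finrank_le_of_left B _ _ h)
  obtain ⟨x, hx, hxs, hxl⟩ := Submodule.exists_fun_fin_finrank_span_eq K s
  obtain ⟨y, hy, hys⟩ : ∃ y : Fin (Module.finrank K (Submodule.span K s)) → W,
      (∀ b, y b ∈ t) ∧ Submodule.span K (Set.range y) = Submodule.span K t := by
    obtain ⟨y, hy, hys, -⟩ := Submodule.exists_fun_fin_finrank_span_eq K t
    rw [← e]
    exact ⟨y, hy, hys⟩
  refine ⟨x, y, hx, hy, fun h0 => ?_⟩
  rw [← Matrix.exists_vecMul_eq_zero_iff] at h0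
  obtain ⟨c, hc, hc0⟩ := h0
  apply hc
  have hu : ∑ a, c a • x a = 0 := by
    apply h
    · exact Submodule.sum_mem _ fun a _ => Submodule.smul_mem _ _ (Submodule.subset_span (hx a))
    · intro b hb
      rw [← hys] at hb
      have h1 : Submodule.span K (Set.range y) ≤ LinearMap.ker (B (∑ a, c a • x a)) := by
        rw [Submodule.span_le]
        rintro _ ⟨b, rfl⟩
        rw [SetLike.mem_coe, LinearMap.mem_ker]
        have h2 := congrFun hc0 b
        rw [Matrix.vecMul, dotProduct, Pi.zero_apply] at h2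
        rw [map_sum, LinearMap.sum_apply, ← h2]
        refine Finset.sum_congr rfl fun a _ => ?_
        rw [map_smul, LinearMap.smul_apply, smul_eq_mul, Matrix.of_apply]
      exact h1 hb
  rw [Fintype.linearIndependent_iff] at hxl
  funext a
  exact hxl c hu a

end Gram

variable {k : Type u} [Field k] {K : Type v} [Field K] {Γ : Type w} [Group Γ]
  {𝓗 : HomologyData k K Γ}

theorem cycles_le_unipotentPart (h : IsFunctorial 𝓗) (X : Variety k) (j : ℕ) :
    cycles 𝓗 X j ≤ unipotentPart (𝓗.act X j) := by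
  intro a ha
  apply unipotentStep_le_unipotentPart 1
  rw [mem_unipotentStep_succ]
  intro γ
  rw [act_cycles h ha γ, sub_self]
  exact Submodule.zero_mem _

theorem unipotentPart_le_cycles {X : Variety k} {j : ℕ} (hX : TateQuotients 𝓗 X j)
    (h : IsFunctorial 𝓗) : unipotentPart (𝓗.act X j) ≤ cycles 𝓗 X j := by
  have hT := tate_of_tateQuotients hX
  have hN := noSelfExtensions_of_tateQuotients h hX
  refine iSup_le fun n => ?_
  induction n with
  | zero => exact bot_le
  | succ n ih =>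
    intro v hv
    rw [mem_unipotentStep_succ] at hv
    exact hT v (hN v fun γ δ => act_cycles h (ih (hv γ)) δ)

theorem pairing_fixed_left {I : Intersections k} {Y : Variety k} {i j : ℕ}
    {B : 𝓗.H Y i →ₗ[K] 𝓗.H Y j →ₗ[K] K} (hB : IsPairing 𝓗 I Y i j B) {a : 𝓗.H Y i}
    (ha : ∀ γ, 𝓗.act Y i γ a = a) (γ : Γ) (v : 𝓗.H Y j) : B a (𝓗.act Y j γ v) = B a v := by
  rw [← hB.invariant γ a v, ha γ]

theorem pairing_fixed_right {I : Intersections k} {Y : Variety k} {i j : ℕ}
    {B : 𝓗.H Y i →ₗ[K] 𝓗.H Y j →ₗ[K] K} (hB : IsPairing 𝓗 I Y i j B) {b : 𝓗.H Y j}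
    (hb : ∀ γ, 𝓗.act Y j γ b = b) (γ : Γ) (u : 𝓗.H Y i) : B (𝓗.act Y i γ u) b = B u b := by
  rw [← hB.invariant γ u b, hb γ]

/-- An invariant vector which is orthogonal to a space of representatives of the invariants of the
quotients is zero. -/
theorem eq_zero_of_orthogonal_right {I : Intersections k} {Y : Variety k} {i j : ℕ}
    {B : 𝓗.H Y i →ₗ[K] 𝓗.H Y j →ₗ[K] K} (hB : IsPairing 𝓗 I Y i j B) {a : 𝓗.H Y i}
    (ha : ∀ γ, 𝓗.act Y i γ a = a) (E : Submodule K (𝓗.H Y j))
    (hE : ∀ M, IsStable (𝓗.act Y j) M → ∀ v, IsInvMod (𝓗.act Y j) M v → ∃ e ∈ E, v - e ∈ M)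
    (h0 : ∀ e ∈ E, B a e = 0) : a = 0 := by
  apply hB.left
  intro v
  obtain ⟨e, he, h1⟩ := hE (LinearMap.ker (B a)) (by
    intro γ m hm
    rw [LinearMap.mem_ker] at hm ⊢
    rw [pairing_fixed_left hB ha, hm]) v (by
    intro γ
    rw [LinearMap.mem_ker, map_sub, pairing_fixed_left hB ha, sub_self])
  rw [LinearMap.mem_ker, map_sub, h0 e he, sub_zero] at h1
  exact h1

theorem eq_zero_of_orthogonal_left {I : Intersections k} {Y : Variety k} {i j : ℕ}
    {B : 𝓗.H Y i →ₗ[K] 𝓗.H Y j →ₗ[K] K} (hB : IsPairing 𝓗 I Y i j B) {b : 𝓗.H Y j}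
    (hb : ∀ γ, 𝓗.act Y j γ b = b) (E : Submodule K (𝓗.H Y i))
    (hE : ∀ M, IsStable (𝓗.act Y i) M → ∀ v, IsInvMod (𝓗.act Y i) M v → ∃ e ∈ E, v - e ∈ M)
    (h0 : ∀ e ∈ E, B e b = 0) : b = 0 := by
  apply hB.right
  intro u
  obtain ⟨e, he, h1⟩ := hE (LinearMap.ker (B.flip b)) (by
    intro γ m hm
    rw [LinearMap.mem_ker, LinearMap.flip_apply] at hm ⊢
    rw [pairing_fixed_right hB hb, hm]) u (by
    intro γ
    rw [LinearMap.mem_ker, map_sub, LinearMap.flip_apply, LinearMap.flip_apply,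
      pairing_fixed_right hB hb, sub_self])
  rw [LinearMap.mem_ker, map_sub, LinearMap.flip_apply, LinearMap.flip_apply, h0 e he,
    sub_zero] at h1
  exact h1

theorem gram_eq [CharZero K] {I : Intersections k} {Y : Variety k}
    {i j : ℕ} {B : 𝓗.H Y i →ₗ[K] 𝓗.H Y j →ₗ[K] K} (hB : IsPairing 𝓗 I Y i j B) {n : ℕ}
    (x y : Fin n → Y.Pt) (hx : ∀ a, dimension Y (x a) = i) (hy : ∀ b, dimension Y (y b) = j) :
    (Matrix.of fun a b => B (𝓗.cl Y i (x a)) (𝓗.cl Y j (y b))).det =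
      (((Matrix.of fun a b => I.number Y (x a) (y b)).det : ℚ) : K) := by
  have h3 : (Matrix.of fun a b => B (𝓗.cl Y i (x a)) (𝓗.cl Y j (y b))) =
      (Rat.castHom K).mapMatrix (Matrix.of fun a b => I.number Y (x a) (y b)) := by
    ext a b
    rw [Matrix.of_apply, RingHom.mapMatrix_apply, Matrix.map_apply, Matrix.of_apply,
      hB.number _ _ (hx a) (hy b)]
    rfl
  rw [h3, ← RingHom.map_det]
  rfl

theorem numericalRank_of_tateQuotients [CharZero K] (h : IsFunctorial 𝓗) {I : Intersections k}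
    {Y : Variety k} {i j : ℕ} {B : 𝓗.H Y i →ₗ[K] 𝓗.H Y j →ₗ[K] K} (hB : IsPairing 𝓗 I Y i j B)
    (hi : TateQuotients 𝓗 Y i) (hj : TateQuotients 𝓗 Y j) :
    NumericalRankGE I Y i j (poleOrder 𝓗 Y i) := by
  have := h.finite Y i
  have := h.finite Y j
  have e : unipotentPart (𝓗.act Y i) = cycles 𝓗 Y i :=
    le_antisymm (unipotentPart_le_cycles hi h) (cycles_le_unipotentPart h Y i)
  have h1 : ∀ a ∈ cycles 𝓗 Y i, (∀ b ∈ cycles 𝓗 Y j, B a b = 0) → a = 0 := fun a ha h0 =>
    eq_zero_of_orthogonal_right hB (act_cycles h ha) (cycles 𝓗 Y j) hj h0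
  have h2 : ∀ b ∈ cycles 𝓗 Y j, (∀ a ∈ cycles 𝓗 Y i, B a b = 0) → b = 0 := fun b hb h0 =>
    eq_zero_of_orthogonal_left hB (act_cycles h hb) (cycles 𝓗 Y i) hi h0
  obtain ⟨x, y, hx, hy, hdet⟩ := exists_gram B _ _ h1 h2
  rw [poleOrder, e]
  choose x' hx' hxx using hx
  choose y' hy' hyy using hy
  refine ⟨x', y', hx', hy', fun h0 => hdet ?_⟩
  have h3 := (gram_eq hB x' y' hx' hy').trans
    ((congrArg (fun r : ℚ => (r : K)) h0).trans Rat.cast_zero)
  rw [← h3]
  congr 2
  ext a b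
  rw [hxx, hyy]

theorem tateQuotients_of_numericalRank [CharZero K] (h : IsFunctorial 𝓗) (hL : HasLifting 𝓗)
    {I : Intersections k} {Y : Variety k} {i j : ℕ} {B : 𝓗.H Y i →ₗ[K] 𝓗.H Y j →ₗ[K] K}
    (hB : IsPairing 𝓗 I Y i j B) (hr : NumericalRankGE I Y i j (poleOrder 𝓗 Y i)) :
    TateQuotients 𝓗 Y i ∧ TateQuotients 𝓗 Y j := by
  have := h.finite Y i
  have := h.finite Y j
  obtain ⟨x, y, hx, hy, hdet⟩ := hr
  have hdet' : (Matrix.of fun a b => B (𝓗.cl Y i (x a)) (𝓗.cl Y j (y b))).det ≠ 0 := by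
    rw [gram_eq hB x y hx hy]
    exact Rat.cast_ne_zero.2 hdet
  have hxc : ∀ a, 𝓗.cl Y i (x a) ∈ cycles 𝓗 Y i := fun a =>
    Submodule.subset_span ⟨x a, hx a, rfl⟩
  have hyc : ∀ b, 𝓗.cl Y j (y b) ∈ cycles 𝓗 Y j := fun b =>
    Submodule.subset_span ⟨y b, hy b, rfl⟩
  -- the unipotent part is spanned by the `x a`
  have hspan : Submodule.span K (Set.range fun a => 𝓗.cl Y i (x a)) =
      unipotentPart (𝓗.act Y i) := by
    apply Submodule.eq_of_le_of_finrank_le
    · rw [Submodule.span_le]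
      rintro _ ⟨a, rfl⟩
      exact cycles_le_unipotentPart h Y i (hxc a)
    · have hli := gram_linearIndependent B _ _ hdet'
      rw [finrank_span_eq_card hli, Fintype.card_fin]
      exact le_rfl
  have hcyc : unipotentPart (𝓗.act Y i) ≤ cycles 𝓗 Y i := by
    rw [← hspan, Submodule.span_le]
    rintro _ ⟨a, rfl⟩
    exact hxc a
  have hi : TateQuotients 𝓗 Y i := by
    intro M hM v hv
    obtain ⟨e, he, h1⟩ := hL Y i M hM v hv
    exact ⟨e, hcyc he, h1⟩
  refine ⟨hi, ?_⟩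
  -- invariants are spanned by the `y b`
  have hinv : ∀ v : 𝓗.H Y j, (∀ γ, 𝓗.act Y j γ v = v) →
      ∃ c : Fin (poleOrder 𝓗 Y i) → K, v = ∑ b, c b • 𝓗.cl Y j (y b) := by
    intro v hv
    obtain ⟨c, hc⟩ := gram_solve B _ _ hdet' fun a => B (𝓗.cl Y i (x a)) v
    refine ⟨c, sub_eq_zero.1 ?_⟩
    have hbc : ∑ b, c b • 𝓗.cl Y j (y b) ∈ cycles 𝓗 Y j :=
      Submodule.sum_mem _ fun b _ => Submodule.smul_mem _ _ (hyc b)
    refine eq_zero_of_orthogonal_left hB ?_ (unipotentPart (𝓗.act Y i)) (hL Y i) ?_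
    · intro γ
      rw [map_sub, hv γ, act_cycles h hbc γ]
    · intro e he
      rw [← hspan] at he
      have h1 : Submodule.span K (Set.range fun a => 𝓗.cl Y i (x a)) ≤
          LinearMap.ker (B.flip (v - ∑ b, c b • 𝓗.cl Y j (y b))) := by
        rw [Submodule.span_le]
        rintro _ ⟨a, rfl⟩
        rw [SetLike.mem_coe, LinearMap.mem_ker, LinearMap.flip_apply, map_sub, hc a, sub_self]
      exact h1 he
  have hT : Tate 𝓗 Y j := by
    intro v hv
    obtain ⟨c, hc⟩ := hinv v hv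
    rw [hc]
    exact Submodule.sum_mem _ fun b _ => Submodule.smul_mem _ _ (hyc b)
  refine tateQuotients_of_lifting hL hT ?_ h
  intro v hv γ
  obtain ⟨c, hc⟩ := hinv (𝓗.act Y j γ v - v) fun δ => hv γ δ
  have h0 : c = 0 := by
    refine gram_unique B _ _ hdet' c fun a => ?_
    rw [← hc, map_sub, pairing_fixed_left hB (act_cycles h (hxc a)), sub_self]
  rw [h0] at hc
  rw [← sub_eq_zero, hc]
  exact Finset.sum_eq_zero fun b _ => by rw [Pi.zero_apply, zero_smul]

end Pool.Agent.V7H2.TS.Int
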