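import Pool.Agent.V7H2.TS.Sch
import Pool.Agent.V7H2.TS.Func
import Pool.Agent.V7H2.TS.Lin

/-!
# Permanence properties, and the semisimplicity from the conjecture for open subvarieties
-/

open CategoryTheory AlgebraicGeometry TopologicalSpace

universe u v v' w w'

namespace Pool.Agent.V7H2.TS.Int

variable {k : Type u} [Field k] {K : Type v} [Field K] {Γ : Type w} [Group Γ]
  {𝓗 : HomologyData k K Γ}

theorem act_cycles (h : IsFunctorial 𝓗) {X : Variety k} {j : ℕ} {a : 𝓗.H X j}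
    (ha : a ∈ cycles 𝓗 X j) (γ : Γ) : 𝓗.act X j γ a = a := by
  have h1 : cycles 𝓗 X j ≤ LinearMap.ker (𝓗.act X j γ - LinearMap.id) := by
    rw [cycles, Submodule.span_le]
    rintro _ ⟨x, hx, rfl⟩
    rw [SetLike.mem_coe, LinearMap.mem_ker, LinearMap.sub_apply, h.act_cl X j x γ hx]
    exact sub_self _
  have h2 := h1 ha
  rw [LinearMap.mem_ker, LinearMap.sub_apply] at h2
  exact sub_eq_zero.1 h2

theorem push_cycles (h : IsFunctorial 𝓗) {X Y : Variety k} (f : X.sch ⟶ Y.sch) [IsProper f.left]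
    {j : ℕ} {a : 𝓗.H X j} (ha : a ∈ cycles 𝓗 X j) : 𝓗.push f j a ∈ cycles 𝓗 Y j := by
  have h1 : cycles 𝓗 X j ≤ (cycles 𝓗 Y j).comap (𝓗.push f j) := by
    rw [cycles, Submodule.span_le]
    rintro _ ⟨x, hx, rfl⟩
    exact h.push_cl f j x hx
  exact h1 ha

theorem pull_cycles (h : IsFunctorial 𝓗) {U X : Variety k} (f : U.sch ⟶ X.sch)
    [IsOpenImmersion f.left] {j : ℕ} {a : 𝓗.H X j} (ha : a ∈ cycles 𝓗 X j) :
    𝓗.pull f j a ∈ cycles 𝓗 U j := by
  have h1 : cycles 𝓗 X j ≤ (cycles 𝓗 U j).comap (𝓗.pull f j) := by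
    rw [cycles, Submodule.span_le]
    rintro _ ⟨x, hx, rfl⟩
    rw [SetLike.mem_coe, Submodule.mem_comap]
    by_cases hr : x ∈ Set.range f.left
    · obtain ⟨y, rfl⟩ := hr
      rw [← dimension_eq f y] at hx
      rw [h.pull_cl f j y hx]
      exact Submodule.subset_span ⟨y, hx, rfl⟩
    · rw [h.pull_cl_zero f j x hx hr]
      exact Submodule.zero_mem _
  exact h1 ha

theorem exists_pull_cycles (h : IsFunctorial 𝓗) {U X : Variety k} (f : U.sch ⟶ X.sch)
    [IsOpenImmersion f.left] {j : ℕ} {b : 𝓗.H U j} (hb : b ∈ cycles 𝓗 U j) :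
    ∃ a ∈ cycles 𝓗 X j, 𝓗.pull f j a = b := by
  have h1 : cycles 𝓗 U j ≤ (cycles 𝓗 X j).map (𝓗.pull f j) := by
    rw [cycles, Submodule.span_le]
    rintro _ ⟨y, hy, rfl⟩
    refine ⟨𝓗.cl X j (f.left y), Submodule.subset_span ⟨f.left y, ?_, rfl⟩, h.pull_cl f j y hy⟩
    rw [← dimension_eq f y]
    exact hy
  exact h1 hb

theorem tate_of_tateQuotients {X : Variety k} {j : ℕ} (h : TateQuotients 𝓗 X j) :
    Tate 𝓗 X j := by
  intro v hv
  obtain ⟨a, ha, h1⟩ := h ⊥ (fun γ m hm => by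
    rw [Submodule.mem_bot] at hm ⊢
    rw [hm, map_zero]) v (fun γ => by
      rw [Submodule.mem_bot, hv γ, sub_self])
  rw [Submodule.mem_bot, sub_eq_zero] at h1
  rw [h1]
  exact ha

theorem isStable_cycles (h : IsFunctorial 𝓗) (X : Variety k) (j : ℕ) :
    IsStable (𝓗.act X j) (cycles 𝓗 X j) := by
  intro γ m hm
  rw [act_cycles h hm γ]
  exact hm

theorem noSelfExtensions_of_tateQuotients (h : IsFunctorial 𝓗) {X : Variety k} {j : ℕ}
    (hX : TateQuotients 𝓗 X j) : NoSelfExtensions 𝓗 X j := by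
  intro v hv γ
  have h1 : IsInvMod (𝓗.act X j) (cycles 𝓗 X j) v := fun γ =>
    tate_of_tateQuotients hX _ fun δ => hv γ δ
  obtain ⟨a, ha, h2⟩ := hX _ (isStable_cycles h X j) v h1
  have h3 : v ∈ cycles 𝓗 X j := by
    have := (cycles 𝓗 X j).add_mem h2 ha
    rwa [sub_add_cancel] at this
  exact act_cycles h h3 γ

theorem tateQuotients_of_lifting (hL : HasLifting 𝓗) {X : Variety k} {j : ℕ}
    (hT : Tate 𝓗 X j) (hN : NoSelfExtensions 𝓗 X j) (h : IsFunctorial 𝓗) :
    TateQuotients 𝓗 X j := by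
  have h1 : ∀ n, unipotentStep (𝓗.act X j) n ≤ cycles 𝓗 X j := by
    intro n
    induction n with
    | zero => exact bot_le
    | succ n ih =>
      intro v hv
      rw [mem_unipotentStep_succ] at hv
      exact hT v (hN v fun γ δ => act_cycles h (ih (hv γ)) δ)
  intro M hM v hv
  obtain ⟨e, he, h2⟩ := hL X j M hM v hv
  exact ⟨e, (iSup_le h1 : unipotentPart (𝓗.act X j) ≤ _) he, h2⟩

/-- The property for all quotients passes to open subvarieties. -/
theorem tateQuotients_open (h : IsHomologyTheory 𝓗) {U X : Variety k} (f : U.sch ⟶ X.sch)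
    [IsOpenImmersion f.left] {j : ℕ} (hX : TateQuotients 𝓗 X j) : TateQuotients 𝓗 U j := by
  obtain ⟨Z, i, hi⟩ := exists_closed_complement f
  haveI := hi.isClosedImmersion
  obtain ⟨-, b, hb, hb0⟩ := h.localization i f hi j
  intro N hN v hv
  -- the boundary is in the image of `N`
  have h1 : b v ∈ N.map b := by
    refine h.weights.odd Z j (N.map b) ?_ (b v) ?_
    · rintro γ _ ⟨n, hn, rfl⟩
      exact ⟨𝓗.act U j γ n, hN γ n hn, hb γ n⟩
    · intro γ
      refine ⟨𝓗.act U j γ v - v, hv γ, ?_⟩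
      rw [map_sub, hb]
  obtain ⟨n, hn, hbn⟩ := h1
  have h2 : b (v - n) = 0 := by rw [map_sub, hbn, sub_self]
  obtain ⟨u, hu⟩ := (hb0 _).1 h2
  obtain ⟨a, ha, h3⟩ := hX (N.comap (𝓗.pull f j)) (by
    intro γ m hm
    rw [Submodule.mem_comap, h.functorial.pull_act]
    exact hN γ _ hm) u (by
    intro γ
    rw [Submodule.mem_comap, map_sub, h.functorial.pull_act, hu, map_sub]
    have e : 𝓗.act U j γ v - 𝓗.act U j γ n - (v - n) =
        (𝓗.act U j γ v - v) - (𝓗.act U j γ n - n) := by abel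
    rw [e]
    exact N.sub_mem (hv γ) (N.sub_mem (hN γ n hn) hn))
  refine ⟨𝓗.pull f j a, pull_cycles h.functorial f ha, ?_⟩
  rw [Submodule.mem_comap, map_sub, hu] at h3
  have e : v - 𝓗.pull f j a = (v - n - 𝓗.pull f j a) + n := by abel
  rw [e]
  exact N.add_mem h3 hn

/-- The property for all quotients passes to the images of proper morphisms. -/
theorem tateQuotients_image (h : IsHomologyTheory 𝓗) {W X : Variety k} (g : W.sch ⟶ X.sch)
    [IsProper g.left] [Surjective g.left] {j : ℕ} (hW : TateQuotients 𝓗 W j) :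
    TateQuotients 𝓗 X j := by
  intro M hM v hv
  have h1 : v ∈ M ⊔ (𝓗.push g j).range := by
    refine h.weights.cokernel g j (M ⊔ (𝓗.push g j).range) ?_ le_sup_right v
      fun γ => Submodule.mem_sup_left (hv γ)
    intro γ m hm
    obtain ⟨m₁, h1, _, ⟨w, rfl⟩, rfl⟩ := Submodule.mem_sup.1 hm
    rw [map_add, ← h.functorial.push_act]
    exact Submodule.add_mem _ (Submodule.mem_sup_left (hM γ _ h1))
      (Submodule.mem_sup_right ⟨_, rfl⟩)
  obtain ⟨m, hm, _, ⟨w, rfl⟩, hmw⟩ := Submodule.mem_sup.1 h1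
  obtain ⟨a, ha, h3⟩ := hW (M.comap (𝓗.push g j)) (by
    intro γ x hx
    rw [Submodule.mem_comap, h.functorial.push_act]
    exact hM γ _ hx) w (by
    intro γ
    rw [Submodule.mem_comap, map_sub, h.functorial.push_act]
    have e : 𝓗.push g j w = v - m := by rw [← hmw]; abel
    rw [e, map_sub]
    have e2 : 𝓗.act X j γ v - 𝓗.act X j γ m - (v - m) =
        (𝓗.act X j γ v - v) - (𝓗.act X j γ m - m) := by abel
    rw [e2]
    exact M.sub_mem (hv γ) (M.sub_mem (hM γ m hm) hm))
  refine ⟨𝓗.push g j a, push_cycles h.functorial g ha, ?_⟩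
  rw [Submodule.mem_comap, map_sub] at h3
  rw [← hmw]
  have e : m + 𝓗.push g j w - 𝓗.push g j a = m + (𝓗.push g j w - 𝓗.push g j a) := by abel
  rw [e]
  exact M.add_mem hm h3

/-- The property for all quotients for an open and the complementary closed subvariety implies the one
for the variety. -/
theorem tateQuotients_glue (h : IsHomologyTheory 𝓗) {Z U X : Variety k} {i : Z.sch ⟶ X.sch}
    {f : U.sch ⟶ X.sch} (hi : IsComplementary i f) {j : ℕ} (hZ : TateQuotients 𝓗 Z j)
    (hU : TateQuotients 𝓗 U j) : TateQuotients 𝓗 X j := by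
  haveI := hi.isClosedImmersion
  haveI := hi.isOpenImmersion
  obtain ⟨hex, -⟩ := h.localization i f hi j
  intro M hM v hv
  obtain ⟨b, hb, h1⟩ := hU (M.map (𝓗.pull f j)) (by
    rintro γ _ ⟨m, hm, rfl⟩
    exact ⟨𝓗.act X j γ m, hM γ m hm, h.functorial.pull_act f j γ m⟩) (𝓗.pull f j v) (by
    intro γ
    exact ⟨𝓗.act X j γ v - v, hv γ, by rw [map_sub, h.functorial.pull_act]⟩)
  obtain ⟨a, ha, rfl⟩ := exists_pull_cycles h.functorial f hb
  obtain ⟨m, hm, hmv⟩ := h1
  have h2 : 𝓗.pull f j (v - a - m) = 0 := by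
    rw [map_sub, map_sub, hmv, sub_self]
  obtain ⟨z, hz⟩ := (hex _).1 h2
  obtain ⟨c, hc, h3⟩ := hZ (M.comap (𝓗.push i j)) (by
    intro γ x hx
    rw [Submodule.mem_comap, h.functorial.push_act]
    exact hM γ _ hx) z (by
    intro γ
    rw [Submodule.mem_comap, map_sub, h.functorial.push_act, hz, map_sub, map_sub,
      act_cycles h.functorial ha γ]
    have e2 : 𝓗.act X j γ v - a - 𝓗.act X j γ m - (v - a - m) =
        (𝓗.act X j γ v - v) - (𝓗.act X j γ m - m) := by abel
    rw [e2]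
    exact M.sub_mem (hv γ) (M.sub_mem (hM γ m hm) hm))
  refine ⟨a + 𝓗.push i j c, Submodule.add_mem _ ha (push_cycles h.functorial i hc), ?_⟩
  rw [Submodule.mem_comap, map_sub, hz] at h3
  have e : v - (a + 𝓗.push i j c) = (v - a - m - 𝓗.push i j c) + m := by abel
  rw [e]
  exact M.add_mem h3 hm

/-- **The conjecture for small open subvarieties implies that there are no self-extensions of the
trivial representation.** -/
theorem noSelfExtensions_of_open (h : IsHomologyTheory 𝓗) (X : Variety k) (j : ℕ)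
    (hU : ∀ U : Variety k, IsSmallComplement U X j → Tate 𝓗 U j) (hX : Tate 𝓗 X j) :
    NoSelfExtensions 𝓗 X j := by
  classical
  haveI := h.functorial.finite X j
  intro v hv
  suffices hmem : v ∈ cycles 𝓗 X j from fun γ => act_cycles h.functorial hmem γ
  have hvA : ∀ γ, 𝓗.act X j γ v - v ∈ cycles 𝓗 X j := fun γ => hX _ fun δ => hv γ δ
  -- finitely many points
  obtain ⟨s, hs, hspan⟩ : ∃ s : Finset X.Pt, (∀ x ∈ s, dimension X x = j) ∧
      cycles 𝓗 X j ≤ Submodule.span K ((𝓗.cl X j) '' s) := by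
    have hfg : (cycles 𝓗 X j).FG := IsNoetherian.noetherian _
    obtain ⟨t, hts, ht⟩ := (Submodule.fg_span_iff_fg_span_finset_subset _).1 hfg
    have hch : ∀ w : t, ∃ x : X.Pt, dimension X x = j ∧ 𝓗.cl X j x = w.1 := fun w => hts w.2
    choose g hg1 hg2 using hch
    refine ⟨Finset.univ.image g, ?_, ?_⟩
    · intro x hx
      obtain ⟨w, -, rfl⟩ := Finset.mem_image.1 hx
      exact hg1 w
    · change Submodule.span K _ ≤ _
      rw [ht]
      apply Submodule.span_mono
      intro w hw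
      refine ⟨g ⟨w, hw⟩, ?_, hg2 ⟨w, hw⟩⟩
      rw [Finset.mem_coe, Finset.mem_image]
      exact ⟨⟨w, hw⟩, Finset.mem_univ _, rfl⟩
  set T : Closeds X.sch.left := ⟨closure (s : Set X.Pt), isClosed_closure⟩ with hT
  set i := closedSubι X T with hi
  set f := openSubι X T.compl with hf
  have hcomp : IsComplementary i f := isComplementary_closed X T
  have hpure : IsPure (closedSub X T) j := isPure_closedSub X j s hs
  obtain ⟨hex, -⟩ := h.localization i f hcomp j
  have hpull0 : ∀ a ∈ cycles 𝓗 X j, 𝓗.pull f j a = 0 := by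
    intro a ha
    have h1 : Submodule.span K ((𝓗.cl X j) '' s) ≤ LinearMap.ker (𝓗.pull f j) := by
      rw [Submodule.span_le]
      rintro _ ⟨x, hx, rfl⟩
      rw [SetLike.mem_coe, LinearMap.mem_ker]
      refine h.functorial.pull_cl_zero f j x (hs x hx) ?_
      have h2 : x ∈ Set.range i.left := by
        rw [hi, range_closedSubι]
        exact subset_closure hx
      rw [hcomp.range_eq] at h2
      exact h2
    exact h1 (hspan ha)
  have hinv : 𝓗.pull f j v ∈ cycles 𝓗 _ j := by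
    refine hU _ ⟨_, i, f, hpure, hcomp⟩ _ fun γ => ?_
    rw [← h.functorial.pull_act, ← sub_eq_zero, ← map_sub]
    exact hpull0 _ (hvA γ)
  obtain ⟨a, ha, hav⟩ := exists_pull_cycles h.functorial f hinv
  have h3 : 𝓗.pull f j (v - a) = 0 := by rw [map_sub, hav, sub_self]
  obtain ⟨z, hz⟩ := (hex _).1 h3
  obtain ⟨c, hc, h4⟩ := h.fundamental _ j hpure ((cycles 𝓗 X j).comap (𝓗.push i j)) (by
    intro γ x hx
    rw [Submodule.mem_comap, h.functorial.push_act]
    exact isStable_cycles h.functorial X j γ _ hx) z (by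
    intro γ
    rw [Submodule.mem_comap, map_sub, h.functorial.push_act, hz, map_sub,
      act_cycles h.functorial ha γ]
    have e2 : 𝓗.act X j γ v - a - (v - a) = 𝓗.act X j γ v - v := by abel
    rw [e2]
    exact hvA γ)
  rw [Submodule.mem_comap, map_sub, hz] at h4
  have h5 := Submodule.add_mem _ (Submodule.add_mem _ h4 (push_cycles h.functorial i hc)) ha
  have e : v - a - 𝓗.push i j c + 𝓗.push i j c + a = v := by abel
  rwa [e] at h5

end Pool.Agent.V7H2.TS.Int
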