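import Pool.Agent.V7H2.TS.Dim

/-!
# Open and closed subvarieties
-/

open CategoryTheory AlgebraicGeometry TopologicalSpace

universe u v v' w w'

namespace Pool.Agent.V7H2.TS

variable {k : Type u} [Field k]

attribute [instance] Variety.isSeparated Variety.locallyOfFiniteType Variety.quasiCompact

instance (X : Variety k) : IsLocallyNoetherian X.sch.left :=
  LocallyOfFiniteType.isLocallyNoetherian X.sch.hom

/-- The open subvariety. -/
noncomputable def openSub (X : Variety k) (O : X.sch.left.Opens) : Variety k where
  sch := Over.mk (O.ι ≫ X.sch.hom)
  isSeparated := by dsimp; infer_instance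
  locallyOfFiniteType := by dsimp; infer_instance
  quasiCompact := by dsimp; infer_instance

/-- The inclusion of the open subvariety. -/
noncomputable def openSubι (X : Variety k) (O : X.sch.left.Opens) :
    (openSub X O).sch ⟶ X.sch := Over.homMk O.ι rfl

instance (X : Variety k) (O : X.sch.left.Opens) : IsOpenImmersion (openSubι X O).left := by
  change IsOpenImmersion O.ι
  infer_instance

theorem range_openSubι (X : Variety k) (O : X.sch.left.Opens) :
    Set.range (openSubι X O).left = O := by
  change Set.range O.ι = O
  exact Scheme.Opens.range_ι O

/-- The reduced closed subvariety. -/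
noncomputable def closedSub (X : Variety k) (T : Closeds X.sch.left) : Variety k where
  sch := Over.mk ((Scheme.IdealSheafData.vanishingIdeal T).subschemeι ≫ X.sch.hom)
  isSeparated := by dsimp; infer_instance
  locallyOfFiniteType := by dsimp; infer_instance
  quasiCompact := by dsimp; infer_instance

/-- The inclusion of the closed subvariety. -/
noncomputable def closedSubι (X : Variety k) (T : Closeds X.sch.left) :
    (closedSub X T).sch ⟶ X.sch :=
  Over.homMk (Scheme.IdealSheafData.vanishingIdeal T).subschemeι rfl

instance (X : Variety k) (T : Closeds X.sch.left) : IsClosedImmersion (closedSubι X T).left := by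
  change IsClosedImmersion (Scheme.IdealSheafData.vanishingIdeal T).subschemeι
  infer_instance

theorem range_closedSubι (X : Variety k) (T : Closeds X.sch.left) :
    Set.range (closedSubι X T).left = T := by
  change Set.range (Scheme.IdealSheafData.vanishingIdeal T).subschemeι = T
  rw [Scheme.IdealSheafData.range_subschemeι]
  rfl

theorem exists_closed_complement {U X : Variety k} (f : U.sch ⟶ X.sch) [IsOpenImmersion f.left] :
    ∃ (Z : Variety k) (i : Z.sch ⟶ X.sch), IsComplementary i f := by
  have hop : IsOpen (Set.range f.left) := f.left.isOpenEmbedding.isOpen_range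
  refine ⟨closedSub X ⟨(Set.range f.left)ᶜ, hop.isClosed_compl⟩, closedSubι X _, ?_, ?_, ?_⟩
  · infer_instance
  · infer_instance
  · rw [range_closedSubι]
    rfl

theorem isComplementary_closed (X : Variety k) (T : Closeds X.sch.left) :
    IsComplementary (closedSubι X T) (openSubι X T.compl) := by
  refine ⟨inferInstance, inferInstance, ?_⟩
  rw [range_closedSubι, range_openSubι]
  simp

theorem isPure_closedSub (X : Variety k) (j : ℕ) (s : Finset X.Pt)
    (hs : ∀ x ∈ s, dimension X x = j) :
    IsPure (closedSub X ⟨closure (s : Set X.Pt), isClosed_closure⟩) j := by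
  classical
  set T : Closeds X.sch.left := ⟨closure (s : Set X.Pt), isClosed_closure⟩ with hT
  have hce : Topology.IsClosedEmbedding (closedSubι X T).left :=
    (closedSubι X T).left.isClosedEmbedding
  have hsT : ∀ x ∈ s, x ∈ Set.range (closedSubι X T).left := by
    intro x hx
    rw [range_closedSubι]
    exact subset_closure hx
  have hfin : ((closedSubι X T).left ⁻¹' (s : Set X.Pt)).Finite :=
    s.finite_toSet.preimage hce.injective.injOn
  refine ⟨hfin.toFinset, ?_, ?_⟩
  · intro z hz
    rw [hfin.mem_toFinset] at hz
    rw [dimension_eq (closedSubι X T) z]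
    exact hs _ hz
  · rw [hfin.coe_toFinset]
    apply Set.eq_univ_of_forall
    intro z
    rw [hce.isInducing.closure_eq_preimage_closure_image, Set.mem_preimage,
      Set.image_preimage_eq_of_subset hsT]
    have : (closedSubι X T).left z ∈ Set.range (closedSubι X T).left := ⟨z, rfl⟩
    rw [range_closedSubι] at this
    exact this

end Pool.Agent.V7H2.TS
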